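import Mathlib

/-!
# Exceptional sets: the combinatorial part
-/

set_option autoImplicit false

namespace Pool.Agent.TH132.E

section Reach

variable {F M ι Ob : Type*} [Field F] [AddCommGroup M] [Module F M]
  {V : Ob → Type*} [∀ A, AddCommGroup (V A)] [∀ A, Module F (V A)]

/-- The sum of the images of the maps in `T A`, `A ∈ Q J`, `J ⊆ S`. -/
def reach (T : ∀ A, Set (V A →ₗ[F] M)) (Q : Finset ι → Set Ob) (S : Set ι) : Submodule F M :=
  ⨆ x : {x : Σ (_ : Finset ι) (A : Ob), (V A →ₗ[F] M) //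
    (x.1 : Set ι) ⊆ S ∧ x.2.1 ∈ Q x.1 ∧ x.2.2 ∈ T x.2.1}, LinearMap.range x.1.2.2

variable {T : ∀ A, Set (V A →ₗ[F] M)} {Q : Finset ι → Set Ob}

lemma range_le_reach {S : Set ι} {J : Finset ι} (hJ : (J : Set ι) ⊆ S) {A : Ob} (hA : A ∈ Q J)
    {φ : V A →ₗ[F] M} (hφ : φ ∈ T A) : LinearMap.range φ ≤ reach T Q S :=
  le_iSup (fun x : {x : Σ (_ : Finset ι) (A : Ob), (V A →ₗ[F] M) //
    (x.1 : Set ι) ⊆ S ∧ x.2.1 ∈ Q x.1 ∧ x.2.2 ∈ T x.2.1} => LinearMap.range x.1.2.2)
    ⟨⟨J, A, φ⟩, hJ, hA, hφ⟩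

lemma reach_le {S : Set ι} {N : Submodule F M}
    (h : ∀ J : Finset ι, (J : Set ι) ⊆ S → ∀ A ∈ Q J, ∀ φ ∈ T A, LinearMap.range φ ≤ N) :
    reach T Q S ≤ N :=
  iSup_le fun x => h x.1.1 x.2.1 x.1.2.1 x.2.2.1 x.1.2.2 x.2.2.2

lemma reach_mono {S S' : Set ι} (h : S ⊆ S') : reach T Q S ≤ reach T Q S' :=
  reach_le fun _ hJ _ hA _ hφ => range_le_reach (hJ.trans h) hA hφ

variable [DecidableEq ι]

/-- Removing a suitable index makes the reachable space smaller. -/
lemma exists_drop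
    (hstep : ∀ J : Finset ι, J.Nonempty → ∀ A ∈ Q J, ∃ i ∈ J, ∀ φ ∈ T A, ∀ S : Set ι, i ∉ S →
      LinearMap.range φ ≤ reach T Q S → LinearMap.range φ ≤ reach T Q (J.erase i : Set ι))
    {S : Set ι} (hS : ¬ reach T Q S ≤ reach T Q ∅) :
    ∃ i ∈ S, reach T Q (S \ {i}) < reach T Q S := by
  classical
  have h1 : ∃ n : ℕ, ∃ J : Finset ι, J.card = n ∧ (J : Set ι) ⊆ S ∧ ∃ A ∈ Q J, ∃ φ ∈ T A,
      ¬ LinearMap.range φ ≤ reach T Q ∅ := by
    by_contra hcon
    push Not at hcon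
    exact hS (reach_le fun J hJ A hA φ hφ => hcon J.card J rfl hJ A hA φ hφ)
  obtain ⟨J, hJn, hJS, A, hA, φ, hφ, hr⟩ := Nat.find_spec h1
  have hmin : ∀ J' : Finset ι, J'.card < J.card → (J' : Set ι) ⊆ S → ∀ A ∈ Q J', ∀ φ ∈ T A,
      LinearMap.range φ ≤ reach T Q ∅ := by
    intro J' hlt hJ' A' hA' φ' hφ'
    by_contra hc
    exact Nat.find_min h1 (hJn ▸ hlt) ⟨J', rfl, hJ', A', hA', φ', hφ', hc⟩
  have hne : J.Nonempty := by
    rw [Finset.nonempty_iff_ne_empty]
    rintro rfl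
    exact hr (range_le_reach (by simp) hA hφ)
  obtain ⟨i, hi, h2⟩ := hstep J hne A hA
  refine ⟨i, hJS (by exact_mod_cast hi), lt_of_le_of_ne (reach_mono Set.sdiff_subset) ?_⟩
  intro heq
  apply hr
  have h3 : LinearMap.range φ ≤ reach T Q (S \ {i}) := heq ▸ range_le_reach hJS hA hφ
  refine (h2 φ hφ (S \ {i}) (by simp) h3).trans (reach_le ?_)
  intro J' hJ' A' hA' φ' hφ'
  have hJe : J' ⊆ J.erase i := by exact_mod_cast hJ'
  refine hmin J' ((Finset.card_le_card hJe).trans_lt (Finset.card_erase_lt_of_mem hi)) ?_ A' hA'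
    φ' hφ'
  intro x hx
  exact hJS (by exact_mod_cast Finset.mem_of_mem_erase (hJe (by exact_mod_cast hx)))

/-- There is a set of at most `dim M - dim (reach ∅)` indices such that nothing new can be reached
from the other ones. -/
theorem exists_exceptional [Module.Finite F M]
    (hstep : ∀ J : Finset ι, J.Nonempty → ∀ A ∈ Q J, ∃ i ∈ J, ∀ φ ∈ T A, ∀ S : Set ι, i ∉ S →
      LinearMap.range φ ≤ reach T Q S → LinearMap.range φ ≤ reach T Q (J.erase i : Set ι)) :
    ∃ E : Finset ι, E.card + Module.finrank F (reach T Q ∅) ≤ Module.finrank F M ∧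
      ∀ J : Finset ι, Disjoint J E → ∀ A ∈ Q J, ∀ φ ∈ T A, LinearMap.range φ ≤ reach T Q ∅ := by
  classical
  have key : ∀ (n : ℕ) (S : Set ι), Module.finrank F (reach T Q S) = n →
      ∃ E : Finset ι, E.card + Module.finrank F (reach T Q ∅) ≤ n ∧
        reach T Q (S \ E) ≤ reach T Q ∅ := by
    intro n
    induction n using Nat.strong_induction_on with
    | _ n ih =>
      intro S hSn
      by_cases hS : reach T Q S ≤ reach T Q ∅
      · refine ⟨∅, ?_, ?_⟩
        · rw [Finset.card_empty, zero_add, ← hSn]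
          exact Submodule.finrank_mono (reach_mono (Set.empty_subset _))
        · simpa using hS
      · obtain ⟨i, hi, hlt⟩ := exists_drop hstep hS
        have hlt' := Submodule.finrank_lt_finrank_of_lt hlt
        obtain ⟨E, hE1, hE2⟩ := ih _ (hSn ▸ hlt') (S \ {i}) rfl
        refine ⟨insert i E, ?_, ?_⟩
        · have := Finset.card_insert_le i E
          omega
        · refine (reach_mono ?_).trans hE2
          intro x hx
          simp only [Finset.coe_insert, Set.mem_sdiff, Set.mem_insert_iff, not_or] at hx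
          exact ⟨⟨hx.1, hx.2.1⟩, hx.2.2⟩
  obtain ⟨E, hE1, hE2⟩ := key _ Set.univ rfl
  refine ⟨E, hE1.trans (Submodule.finrank_le _), fun J hJ A hA φ hφ => ?_⟩
  refine (range_le_reach (S := Set.univ \ (E : Set ι)) ?_ hA hφ).trans hE2
  intro x hx
  refine ⟨trivial, fun hxE => ?_⟩
  exact Finset.disjoint_left.1 hJ (by exact_mod_cast hx) (by exact_mod_cast hxE)

end Reach

end Pool.Agent.TH132.E
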