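import Pool.Agent.TH132.E.Split

/-!
# The exceptional set
-/

set_option autoImplicit false

open CategoryTheory AlgebraicGeometry TensorProduct

universe u v w

namespace Pool.Agent.TH132.E

open Pool.Agent.H914 Pool.Agent.H914.VarClass Pool.Agent.H914.VarClass.Obj
  Pool.Agent.H914.WeilCohomology

variable {k : Type u} [Field k] {𝒱 : VarClass k} {ops : CycleOps 𝒱}
  {W : WeilCohomology.{u, v} ops} {L : Type v} [Field L] [Algebra W.K L] {O : Type w}
  {𝓛 : Set (Set O)} {c : O → L} {G : Set (OVar W L O)}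

lemma tmap_tvec (hc : ∀ o, c o ≠ 0) {B : OVar W L O} {n : ℤ} {φ : W.K →ₗ[W.K] W.H B.X}
    (h : TMap 𝓛 c n (unitSp W L O) (opSp B) φ) : TVec 𝓛 c B (-n) (φ 1) := by
  obtain ⟨D, hD, h⟩ := h
  refine ⟨D, hD, fun o ho => ?_⟩
  have h1 : φ.baseChange L ((1 : L) ⊗ₜ[W.K] (1 : W.K)) =
    c o ^ n • B.act o (φ.baseChange L ((1 : L) ⊗ₜ[W.K] (1 : W.K))) := h ⟨o, ho⟩ _
  rw [LinearMap.baseChange_tmul] at h1
  conv_rhs => rw [h1]
  rw [smul_smul, ← zpow_add₀ (hc o), neg_add_cancel, zpow_zero, one_smul]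

variable {ι : Type*} [DecidableEq ι] {X : ι → OVar W L O}

lemma reach_empty (hc : ∀ o, c o ≠ 0) (Z : OVar W L O) :
    reach (V := OpSp.V) (allMaps 𝓛 c (opSp Z)) (Qt X G) ∅ =
      Submodule.span W.K {b : W.H Z.X | ∃ n, TVec 𝓛 c Z n b} := by
  apply le_antisymm
  · apply reach_le
    rintro J hJ A hA φ ⟨n, hφ⟩
    have hJ0 : J = ∅ := by
      rw [← Finset.coe_eq_empty]
      exact Set.subset_empty_iff.1 hJ
    subst hJ0
    rcases hA with ⟨_, rfl⟩ | ⟨A, hA, _⟩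
    · have h1 : ∀ φ : W.K →ₗ[W.K] W.H Z.X, TMap 𝓛 c n (unitSp W L O) (opSp Z) φ →
          LinearMap.range φ ≤ Submodule.span W.K {b : W.H Z.X | ∃ n, TVec 𝓛 c Z n b} := by
        rintro φ hφ _ ⟨x, rfl⟩
        have h2 : φ x = x • φ 1 := by
          rw [← map_smul, smul_eq_mul, mul_one]
        rw [h2]
        exact Submodule.smul_mem _ _ (Submodule.subset_span ⟨-n, tmap_tvec hc hφ⟩)
      exact h1 φ hφ
    · exact absurd hA.nonempty (by simp)
  · refine (Submodule.span_le (R := W.K) (M := W.H Z.X)).2 ?_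
    rintro b ⟨n, hb⟩
    have h1 := range_le_reach (V := OpSp.V) (M := W.H Z.X) (T := allMaps 𝓛 c (opSp Z))
      (Q := Qt X G) (S := ∅) (J := ∅) (by simp) (A := unitSp W L O) (Or.inl ⟨rfl, rfl⟩)
      (φ := LinearMap.toSpanSingleton W.K (W.H Z.X) b) ⟨-n, tvec_tmap hc hb⟩
    have h2 : b ∈ LinearMap.range (LinearMap.toSpanSingleton W.K (W.H Z.X) b) :=
      ⟨1, by rw [LinearMap.toSpanSingleton_apply, one_smul]⟩
    exact h1 h2

/-- **The exceptional set.** The variety `Z` is independent of all towers formed from the members of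
the family outside a set of at most `dim H(Z) - dim (span of the eigenvectors)` indices. -/
theorem exceptional (h𝓛 : Directed' 𝓛) (hc : ∀ o, c o ≠ 0) (hG : OClass c G) (hX : ∀ i, X i ∈ G)
    (hind : ∀ i A B υ, IsProdSet X G {i} A → IsProdSet X G {i}ᶜ B → ProdAct A B υ →
      prodO A B υ ∈ G → SplitsO 𝓛 c A B υ)
    (hred : ∀ J A, IsTowerO X G J A → AllReducible 𝓛 (opSp A)) (Z : OVar W L O) :
    ∃ E : Finset ι, E.card +
        Module.finrank W.K (Submodule.span W.K {b : W.H Z.X | ∃ n, TVec 𝓛 c Z n b}) ≤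
          Module.finrank W.K (W.H Z.X) ∧
      ∀ J : Finset ι, Disjoint J E → ∀ A, IsTowerO X G J A → ∀ υ, ProdAct A Z υ →
        SplitsO 𝓛 c A Z υ := by
  have hfin : Module.Finite W.K (opSp Z).V := inferInstanceAs (Module.Finite W.K (W.H Z.X))
  obtain ⟨E, hE, h⟩ := gen_exceptional h𝓛 hc (opSp Z) (Qt X G) (by
    rintro J _ (⟨rfl, rfl⟩ | ⟨A, hA, rfl⟩)
    · intro D hD N hN
      by_cases h0 : N = ⊥
      · exact ⟨⊤, fun o x _ => by
          rw [Submodule.baseChange_top]; trivial, h0 ▸ isCompl_bot_top⟩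
      · refine ⟨⊥, Stable.bot, ?_⟩
        have h1 : N = ⊤ := by
          have h2 : ∀ N : Submodule W.K W.K, N ≠ ⊥ → N = ⊤ := fun N hN =>
            (eq_bot_or_eq_top N).resolve_left hN
          exact h2 N h0
        rw [h1]
        exact isCompl_top_bot
    · exact hred J A hA) (tower_hind h𝓛 hc hG hX hind)
  rw [reach_empty hc Z] at hE h
  refine ⟨E, hE, fun J hJ A hA υ hυ m t ht => ?_⟩
  have hAG := hA.mem hX
  exact split_of_range h𝓛 hc (hG.tr A hAG) hυ ht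
    (h J hJ (opSp A) (Or.inr ⟨A, hA, rfl⟩) _ (fm W A.X Z.X t) (fm_tmap h𝓛 hc (hG.tr A hAG) hυ ht))

end Pool.Agent.TH132.E
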