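import Pool.Agent.H914R2.KCorr
import Pool.Agent.H914R2.WBase2

/-!
# Classes on products and linear maps
-/

set_option autoImplicit false

open CategoryTheory AlgebraicGeometry TensorProduct

universe u v

namespace Pool.Agent.TH132.E

open Pool.Agent.H914 Pool.Agent.H914.VarClass Pool.Agent.H914.VarClass.Obj
  Pool.Agent.H914.WeilCohomology

variable {k : Type u} [Field k] {𝒱 : VarClass k} {ops : CycleOps 𝒱}

section One

variable (W : WeilCohomology.{u, v} ops) (A B : 𝒱.Obj)

/-- The linear map given by a class on the product. -/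
noncomputable def fm : W.H (A.prod B) →ₗ[W.K] (W.H A →ₗ[W.K] W.H B) where
  toFun t := W.push (snd A B) ∘ₗ (LinearMap.mulRight W.K t) ∘ₗ (W.map (fst A B)).toLinearMap
  map_add' t t' := by
    ext a
    simp [mul_add]
  map_smul' r t := by
    ext a
    simp

variable {A B}

lemma fm_apply (t : W.H (A.prod B)) (a : W.H A) :
    fm W A B t a = W.push (snd A B) (W.map (fst A B) a * t) := rfl

lemma fm_mul (a' : W.H A) (b' : W.H B) (a : W.H A) :
    fm W A B (W.map (fst A B) a' * W.map (snd A B) b') a = W.tr A (a * a') • b' := by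
  rw [fm_apply, ← mul_assoc, ← map_mul, W.push_snd]

lemma fm_injective : Function.Injective (fm W A B) := by
  rw [← LinearMap.ker_eq_bot, LinearMap.ker_eq_bot']
  intro t ht
  classical
  obtain ⟨s, rfl⟩ := (W.kunneth A B).2 t
  let b := Module.finBasis W.K (W.H B)
  have h1 := TensorProduct.equivFinsuppOfBasisRight_symm_apply b (M := W.H A)
    (TensorProduct.equivFinsuppOfBasisRight b s)
  rw [LinearEquiv.symm_apply_apply] at h1
  set g := TensorProduct.equivFinsuppOfBasisRight b s with hg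
  have h2 : kunnethMap (W.map (fst A B)) (W.map (snd A B)) s =
      ∑ i, W.map (fst A B) (g i) * W.map (snd A B) (b i) := by
    rw [h1, Finsupp.sum_fintype _ _ (fun i => by rw [zero_tmul]), map_sum]
    rfl
  have h3 : ∀ i, g i = 0 := by
    intro i
    apply nondeg_right (W := W)
    intro a
    have h4 := LinearMap.congr_fun ht a
    rw [h2, map_sum, LinearMap.sum_apply, LinearMap.zero_apply] at h4
    simp only [fm_mul] at h4
    exact Fintype.linearIndependent_iff.1 b.linearIndependent _ h4 i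
  rw [h2]
  exact Finset.sum_eq_zero fun i _ => by rw [h3 i, map_zero, zero_mul]

lemma fm_bijective : Function.Bijective (fm W A B) := by
  refine ⟨fm_injective W, ?_⟩
  have h1 : Module.finrank W.K (W.H (A.prod B)) =
      Module.finrank W.K (W.H A →ₗ[W.K] W.H B) := by
    have e := LinearEquiv.ofBijective _ (W.kunneth A B)
    rw [← e.finrank_eq, Module.finrank_tensorProduct, Module.finrank_linearMap]
  exact (LinearMap.injective_iff_surjective_of_finrank_eq_finrank h1).1 (fm_injective W)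

end One

section Act

variable {W : WeilCohomology.{u, v} ops} {A B : 𝒱.Obj} {α : W.H A →ₐ[W.K] W.H A}
  {β : W.H B →ₐ[W.K] W.H B} {γ : W.H (A.prod B) →ₐ[W.K] W.H (A.prod B)} {s : W.K}

lemma push_act (h1 : ∀ a, γ (W.map (fst A B) a) = W.map (fst A B) (α a))
    (h2 : ∀ b, γ (W.map (snd A B) b) = W.map (snd A B) (β b))
    (hs : ∀ a, W.tr A (α a) = s * W.tr A a) (y : W.H (A.prod B)) :
    W.push (snd A B) (γ y) = s • β (W.push (snd A B) y) := by
  refine W.kunneth_induction (p := fun y => W.push (snd A B) (γ y) =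
    s • β (W.push (snd A B) y)) ?_ ?_ y
  · intro x y hx hy
    rw [map_add, map_add, hx, hy, map_add, map_add, smul_add]
  · intro i j a _ b _
    rw [map_mul, h1, h2, W.push_snd, W.push_snd, hs, map_smul, smul_smul]

lemma fm_act (h1 : ∀ a, γ (W.map (fst A B) a) = W.map (fst A B) (α a))
    (h2 : ∀ b, γ (W.map (snd A B) b) = W.map (snd A B) (β b))
    (hs : ∀ a, W.tr A (α a) = s * W.tr A a) (t : W.H (A.prod B)) (a : W.H A) :
    fm W A B (γ t) (α a) = s • β (fm W A B t a) := by
  rw [fm_apply, fm_apply, ← h1, ← map_mul, push_act h1 h2 hs]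

lemma act_bijective (hs : ∀ a, W.tr A (α a) = s * W.tr A a) (h0 : s ≠ 0) :
    Function.Bijective α := by
  have hinj : Function.Injective α.toLinearMap := by
    rw [← LinearMap.ker_eq_bot, LinearMap.ker_eq_bot']
    intro a ha
    apply W.nondeg
    intro b
    have h1 := hs (a * b)
    rw [map_mul, show α a = 0 from ha, zero_mul, map_zero] at h1
    exact (mul_eq_zero.1 h1.symm).resolve_left h0
  exact ⟨hinj, LinearMap.injective_iff_surjective.1 hinj⟩

lemma cls_act (h1 : ∀ a, γ (W.map (fst A B) a) = W.map (fst A B) (α a))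
    (h2 : ∀ b, γ (W.map (snd A B) b) = W.map (snd A B) (β b))
    (hs : ∀ a, W.tr A (α a) = s * W.tr A a) (h0 : s ≠ 0) {t : W.H (A.prod B)} {r : W.K}
    (hr : r ≠ 0) (hf : ∀ a, fm W A B t (α a) = r • β (fm W A B t a)) :
    γ t = (s * r⁻¹) • t := by
  apply fm_injective W
  ext a'
  obtain ⟨a, rfl⟩ := (act_bijective hs h0).2 a'
  rw [fm_act h1 h2 hs, map_smul, LinearMap.smul_apply, hf, smul_smul, mul_assoc,
    inv_mul_cancel₀ hr, mul_one]

lemma fm_compat (h1 : ∀ a, γ (W.map (fst A B) a) = W.map (fst A B) (α a))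
    (h2 : ∀ b, γ (W.map (snd A B) b) = W.map (snd A B) (β b))
    (hs : ∀ a, W.tr A (α a) = s * W.tr A a) {t : W.H (A.prod B)} {r : W.K}
    (hr : r ≠ 0) (ht : γ t = r • t) (a : W.H A) :
    fm W A B t (α a) = (s * r⁻¹) • β (fm W A B t a) := by
  have h3 := fm_act h1 h2 hs t a
  rw [ht, map_smul, LinearMap.smul_apply] at h3
  rw [mul_comm, ← smul_smul, ← h3, smul_smul, inv_mul_cancel₀ hr, one_smul]

/-- The trace condition for products. -/
lemma tr_act_prod {s' : W.K} (h1 : ∀ a, γ (W.map (fst A B) a) = W.map (fst A B) (α a))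
    (h2 : ∀ b, γ (W.map (snd A B) b) = W.map (snd A B) (β b))
    (hs : ∀ a, W.tr A (α a) = s * W.tr A a) (hs' : ∀ a, W.tr B (β a) = s' * W.tr B a)
    (y : W.H (A.prod B)) : W.tr (A.prod B) (γ y) = s * s' * W.tr (A.prod B) y := by
  refine W.kunneth_induction (p := fun y => W.tr (A.prod B) (γ y) =
    s * s' * W.tr (A.prod B) y) ?_ ?_ y
  · intro x y hx hy
    rw [map_add, map_add, hx, hy, map_add, mul_add]
  · intro i j a _ b _
    rw [map_mul, h1, h2, W.tr_prod, W.tr_prod, hs, hs']
    ring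

end Act

section Base

variable (W : WeilCohomology.{u, v} ops) (L : Type v) [Field L] [Algebra W.K L] {A B : 𝒱.Obj}

lemma fm_base (t : W.H (A.prod B)) (x : L ⊗[W.K] W.H A) :
    fm (baseW W L) A B ((1 : L) ⊗ₜ[W.K] t : L ⊗[W.K] W.H (A.prod B)) x =
      (fm W A B t).baseChange L x := by
  refine tmul_induction (P := fun x => fm (baseW W L) A B
    ((1 : L) ⊗ₜ[W.K] t : L ⊗[W.K] W.H (A.prod B)) x = (fm W A B t).baseChange L x) ?_ ?_ ?_ x
  · exact (map_zero (fm (baseW W L) A B
      ((1 : L) ⊗ₜ[W.K] t : L ⊗[W.K] W.H (A.prod B)))).trans (map_zero _).symm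
  · intro x y hx hy
    rw [map_add, ← hx, ← hy]
    exact map_add (fm (baseW W L) A B ((1 : L) ⊗ₜ[W.K] t : L ⊗[W.K] W.H (A.prod B))) x y
  · intro l a
    rw [LinearMap.baseChange_tmul, fm_apply W]
    have h1 : fm (baseW W L) A B ((1 : L) ⊗ₜ[W.K] t : L ⊗[W.K] W.H (A.prod B))
        (l ⊗ₜ[W.K] a : L ⊗[W.K] W.H A) = (W.push (snd A B)).baseChange L
          ((l ⊗ₜ[W.K] (W.map (fst A B) a) : L ⊗[W.K] W.H (A.prod B)) *
            ((1 : L) ⊗ₜ[W.K] t : L ⊗[W.K] W.H (A.prod B))) := rfl
    rw [h1, Algebra.TensorProduct.tmul_mul_tmul, mul_one, LinearMap.baseChange_tmul]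

end Base

end Pool.Agent.TH132.E
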