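import Pool.Agent.H914R2.WBase2

/-!
# Hodge theory on a Weil cohomology: definitions
-/

set_option autoImplicit false

open CategoryTheory AlgebraicGeometry TensorProduct

namespace Pool.Agent.TH132.E

open Pool.Agent.H914 Pool.Agent.H914.VarClass Pool.Agent.H914.VarClass.Obj
  Pool.Agent.H914.WeilCohomology

section Alg

variable {K : Type} [Field K] [Algebra K ℂ] {A : Type} [Ring A] [Algebra K A] {B : Type} [Ring B]
  [Algebra K B] {C : Type} [Ring C] [Algebra K C]

/-- The subspaces `comp (p, q)` are a Hodge decomposition of `ℂ ⊗ A`, compatible with the degrees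
`gr i`, with the product and with the orientation `tr` (which vanishes off `H^(n,n)`). -/
structure IsHodgeDecomp (gr : ℕ → Submodule K A) (n : ℕ) (tr : A →ₗ[K] K)
    (comp : ℕ × ℕ → Submodule ℂ (ℂ ⊗[K] A)) : Prop where
  isInternal : DirectSum.IsInternal comp
  le_gr : ∀ p, comp p ≤ (gr (p.1 + p.2)).baseChange ℂ
  one_mem : 1 ∈ comp 0
  mul_mem : ∀ p q a b, a ∈ comp p → b ∈ comp q → a * b ∈ comp (p + q)
  tr_eq_zero : ∀ p, p ≠ (n, n) → ∀ a ∈ comp p, formBase ℂ tr a = 0

/-- The subspace `N` is a sub-Hodge structure: `ℂ ⊗ N` is the sum of its intersections with the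
`H^(p,q)`. -/
def IsSubHodge (comp : ℕ × ℕ → Submodule ℂ (ℂ ⊗[K] A)) (N : Submodule K A) : Prop :=
  N.baseChange ℂ ≤ ⨆ p, N.baseChange ℂ ⊓ comp p

/-- All sub-Hodge structures have a complement (this follows from polarizations). -/
def HasComplements (comp : ℕ × ℕ → Submodule ℂ (ℂ ⊗[K] A)) : Prop :=
  ∀ N, IsSubHodge comp N → ∃ N', IsSubHodge comp N' ∧ IsCompl N N'

/-- The homomorphism `f` maps `H^(p,q)` to `H^(p,q)`. -/
def IsHodgeMap (f : A →ₐ[K] B) (compA : ℕ × ℕ → Submodule ℂ (ℂ ⊗[K] A))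
    (compB : ℕ × ℕ → Submodule ℂ (ℂ ⊗[K] B)) : Prop :=
  ∀ p, ∀ a ∈ compA p, mapBase ℂ f a ∈ compB p

/-- The Hodge classes of type `(j, j)`. -/
def hodgeClasses (comp : ℕ × ℕ → Submodule ℂ (ℂ ⊗[K] A)) (j : ℕ) : Set A :=
  {a | (1 : ℂ) ⊗ₜ[K] a ∈ comp (j, j)}

end Alg

section Split

variable {K : Type*} [Field K] {A : Type*} [Ring A] [Algebra K A] {B : Type*} [Ring B]
  [Algebra K B] {C : Type*} [Ring C] [Algebra K C]

/-- The products `p a * q b`, where `a` and `b` belong to `HA i` and `HB i'` for some `i`, `i'` with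
`i + i' = j`. -/
def crossProducts (p : A →ₐ[K] C) (q : B →ₐ[K] C) (HA : ℕ → Set A) (HB : ℕ → Set B) (j : ℕ) :
    Set C :=
  {y | ∃ i i' a b, i + i' = j ∧ a ∈ HA i ∧ b ∈ HB i' ∧ y = p a * q b}

/-- The elements of `HC j` are linear combinations of such products. -/
def ClassesSplit (p : A →ₐ[K] C) (q : B →ₐ[K] C) (HA : ℕ → Set A) (HB : ℕ → Set B)
    (HC : ℕ → Set C) : Prop :=
  ∀ j, ∀ t ∈ HC j, t ∈ Submodule.span K (crossProducts p q HA HB j)

end Split

variable {𝒱 : VarClass ℂ} {ops : CycleOps 𝒱}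

/-- Functorial Hodge decompositions of the cohomology of the varieties of the class, such that all
sub-Hodge structures have complements. -/
structure HodgeTheory (W : WeilCohomology.{0, 0} ops) [Algebra W.K ℂ] where
  /-- the subspace `H^(p,q)(X)` -/
  comp : ∀ X : 𝒱.Obj, ℕ × ℕ → Submodule ℂ (ℂ ⊗[W.K] W.H X)
  isHodgeDecomp : ∀ X, IsHodgeDecomp (W.gr X) X.dim (W.tr X) (comp X)
  hasComplements : ∀ X, HasComplements (comp X)
  isHodgeMap : ∀ {X Y : 𝒱.Obj} (f : X ⟶ Y), IsHodgeMap (W.map f) (comp Y) (comp X)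

variable {W : WeilCohomology.{0, 0} ops} [Algebra W.K ℂ]

/-- The Hodge classes of type `(j, j)` on `X`. -/
def HodgeTheory.hodge (𝓗 : HodgeTheory W) (X : 𝒱.Obj) (j : ℕ) : Set (W.H X) :=
  hodgeClasses (𝓗.comp X) j

/-- The space of all Hodge classes on `X`. -/
def HodgeTheory.hodgeSpace (𝓗 : HodgeTheory W) (X : 𝒱.Obj) : Submodule W.K (W.H X) :=
  Submodule.span W.K (⋃ j, 𝓗.hodge X j)

/-- Every Hodge class of type `(j, j)` on `A × B` is a linear combination of products `a × b`, where
`a` and `b` are Hodge classes of types `(i, i)` and `(i', i')` on `A` and `B` and `i + i' = j`. -/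
def HodgeTheory.Splits (𝓗 : HodgeTheory W) (A B : 𝒱.Obj) : Prop :=
  ClassesSplit (W.map (fst A B)) (W.map (snd A B)) (𝓗.hodge A) (𝓗.hodge B) (𝓗.hodge (A.prod B))

/-- The products of copies of the members `X i`, `i ∈ T`, of the family. -/
inductive IsProductOf {ι : Type} (X : ι → 𝒱.Obj) (T : Set ι) : 𝒱.Obj → Prop
  | one (i : ι) : i ∈ T → IsProductOf X T (X i)
  | prod (A B : 𝒱.Obj) : IsProductOf X T A → IsProductOf X T B → IsProductOf X T (A.prod B)

/-- The products `A₁ × (A₂ × ( ⋯ ))`, where `A₁`, `A₂`, ... are products of copies of `X i₁`, of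
`X i₂`, ... and the elements `i₁`, `i₂`, ... of `J` are pairwise different. -/
inductive IsTower {ι : Type} [DecidableEq ι] (X : ι → 𝒱.Obj) : Finset ι → 𝒱.Obj → Prop
  | one (i : ι) (A : 𝒱.Obj) : IsProductOf X {i} A → IsTower X {i} A
  | prod (i : ι) (J : Finset ι) (A B : 𝒱.Obj) : i ∉ J → IsProductOf X {i} A → IsTower X J B →
      IsTower X (insert i J) (A.prod B)

/-- The members of the family are jointly independent: the Hodge classes on `A × B` split, for every
product `A` of copies of one member `X i` and every product `B` of copies of the other members. -/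
def JointlyIndependent (𝓗 : HodgeTheory W) {ι : Type} (X : ι → 𝒱.Obj) : Prop :=
  ∀ i A B, IsProductOf X {i} A → IsProductOf X {i}ᶜ B → 𝓗.Splits A B

/-- Spaces of classes `S X j` on all varieties `X` of the class. -/
abbrev Classes (W : WeilCohomology.{0, 0} ops) : Type 1 := ∀ X : 𝒱.Obj, ℕ → Submodule W.K (W.H X)

/-- All Hodge classes on `X` belong to the system `S`. -/
def HodgeTheory.AllIn (𝓗 : HodgeTheory W) (S : Classes W) (X : 𝒱.Obj) : Prop :=
  ∀ j, 𝓗.hodge X j ⊆ S X j

/-- The system `S` is stable under cup products and pull-backs. -/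
def StableMul (S : Classes W) : Prop :=
  (∀ X i j a b, a ∈ S X i → b ∈ S X j → a * b ∈ S X (i + j)) ∧
    ∀ (X Y : 𝒱.Obj) (f : X ⟶ Y) j, ∀ a ∈ S Y j, W.map f a ∈ S X j

/-- The system `S` is stable under push-forwards. -/
def StablePush (S : Classes W) : Prop :=
  ∀ (X Y : 𝒱.Obj) (f : X ⟶ Y) i j, i + Y.dim = j + X.dim → ∀ a ∈ S X i, W.push f a ∈ S Y j

/-- A system of spaces of Hodge classes `S X j` of type `(j, j)` on the varieties `X` of the class,
which contain classes of trace one (classes of points) and are stable under products, pull-backs and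
push-forwards. Examples: the linear combinations of algebraic classes, the motivated classes, the
absolute Hodge classes. -/
structure ClassSystem (𝓗 : HodgeTheory W) (S : Classes W) : Prop where
  isHodge : ∀ X j, ∀ a ∈ S X j, a ∈ 𝓗.hodge X j
  point : ∀ X, ∃ a ∈ S X X.dim, W.tr X a = 1
  stableMul : StableMul S
  stablePush : StablePush S

end Pool.Agent.TH132.E
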