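import Pool.Agent.TH125.Gal.Pub2
import Pool.Agent.TH132.E.HDefs

/-!
# Galois representations on a Weil cohomology: definitions
-/

set_option autoImplicit false

open CategoryTheory AlgebraicGeometry

universe u v w

namespace Pool.Agent.TH132.E

open Pool.Agent.H914 Pool.Agent.H914.VarClass Pool.Agent.H914.VarClass.Obj
  Pool.Agent.H914.WeilCohomology Pool.Agent.TH125.Gal

section Alg

variable {K : Type*} [Field K] {A : Type*} [Ring A] [Algebra K A] {Γ : Type*} [Group Γ]

/-- The Tate classes of degree `2 j`: the elements of `gr (2 * j)` which are multiplied by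
`χ g ^ j` by all elements `g` of a subgroup of finite index. -/
def tateClasses (χ : Γ →* Kˣ) (gr : ℕ → Submodule K A) (ρ : Γ →* (A ≃ₐ[K] A)) (j : ℕ) : Set A :=
  {t | t ∈ gr (2 * j) ∧ ∃ Δ : Subgroup Γ, Δ.FiniteIndex ∧ ∀ g ∈ Δ, ρ g t = (χ g : K) ^ j • t}

/-- The action is semisimple: for every subgroup `Δ` of finite index all subspaces stable under `Δ`
have a complement stable under `Δ`. -/
def SemisimpleAct (ρ : Γ →* (A ≃ₐ[K] A)) : Prop :=
  ∀ Δ : Subgroup Γ, Δ.FiniteIndex → ∀ N : Submodule K A, (∀ g ∈ Δ, ∀ x ∈ N, ρ g x ∈ N) →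
    ∃ N' : Submodule K A, (∀ g ∈ Δ, ∀ x ∈ N', ρ g x ∈ N') ∧ IsCompl N N'

end Alg

variable {k : Type u} [Field k] {𝒱 : VarClass k} {ops : CycleOps 𝒱}
  {W : WeilCohomology.{u, v} ops} {Γ : Type w} [Group Γ]

/-- The Tate classes of degree `2 j` on `A`. -/
def tate (χ : Γ →* W.Kˣ) (A : GVar W Γ) (j : ℕ) : Set (W.H A.X) :=
  tateClasses χ (W.gr A.X) A.act j

/-- The dimension of the space spanned by the Tate classes of all degrees. -/
noncomputable def numTate (χ : Γ →* W.Kˣ) (A : GVar W Γ) : ℕ :=
  Module.finrank W.K (Submodule.span W.K (⋃ j, tate χ A j))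

/-- The dimension of the cohomology. -/
noncomputable def totalBetti (W : WeilCohomology.{u, v} ops) (X : 𝒱.Obj) : ℕ :=
  Module.finrank W.K (W.H X)

/-- The elements of `HC j` are linear combinations of products `a × b`, where `a` and `b` belong to
`HA i` and `HB i'` and `i + i' = j`. -/
def SplitAt (W : WeilCohomology.{u, v} ops) (A B : 𝒱.Obj) (HA : ℕ → Set (W.H A))
    (HB : ℕ → Set (W.H B)) (HC : ℕ → Set (W.H (A.prod B))) : Prop :=
  ClassesSplit (W.map (fst A B)) (W.map (snd A B)) HA HB HC

/-- `C` is the product of `A` and `B` with some action, and every Tate class of degree `2 j` on `C` is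
a linear combination of products `a × b`, where `a` and `b` are Tate classes of degrees `2 i` and `2 i'`
on `A` and `B` and `i + i' = j`. -/
inductive TateSplits (χ : Γ →* W.Kˣ) (A B : GVar W Γ) : GVar W Γ → Prop
  | mk (υ) : SplitAt W A.X B.X (tate χ A) (tate χ B) (tate χ ⟨A.X.prod B.X, υ⟩) →
      TateSplits χ A B ⟨A.X.prod B.X, υ⟩

/-- The products of copies of the members `X i`, `i ∈ T`, of the family. -/
inductive GProduct {ι : Type} (X : ι → GVar W Γ) (G : Set (GVar W Γ)) (T : Set ι) :
    GVar W Γ → Prop
  | one (i : ι) : i ∈ T → GProduct X G T (X i)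
  | prod (A B C : GVar W Γ) : GProduct X G T A → GProduct X G T B → IsProdVar A B C → C ∈ G →
      GProduct X G T C

/-- The products `A₁ × (A₂ × ( ⋯ ))`, where `A₁`, `A₂`, ... are products of copies of `X i₁`, of
`X i₂`, ... and the elements `i₁`, `i₂`, ... of `J` are pairwise different. -/
inductive GTowerOf {ι : Type} [DecidableEq ι] (X : ι → GVar W Γ) (G : Set (GVar W Γ)) :
    Finset ι → GVar W Γ → Prop
  | one (i : ι) (A : GVar W Γ) : GProduct X G {i} A → GTowerOf X G {i} A
  | prod (i : ι) (J : Finset ι) (A B C : GVar W Γ) : i ∉ J → GProduct X G {i} A →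
      GTowerOf X G J B → IsProdVar A B C → C ∈ G → GTowerOf X G (insert i J) C

/-- The members of the family are jointly independent: the Tate classes on `A × B` split, for every
product `A` of copies of one member `X i` and every product `B` of copies of the other members. -/
def GIndependent (χ : Γ →* W.Kˣ) {ι : Type} (X : ι → GVar W Γ) (G : Set (GVar W Γ)) : Prop :=
  ∀ i A B C, GProduct X G {i} A → GProduct X G {i}ᶜ B → IsProdVar A B C → C ∈ G →
    TateSplits χ A B C

/-- The family consists of members of the class `G`, it is jointly independent and the action on the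
cohomology of all products of its members is semisimple. -/
structure IndependentFamily (χ : Γ →* W.Kˣ) {ι : Type} (X : ι → GVar W Γ) (G : Set (GVar W Γ)) :
    Prop where
  mem : ∀ i, X i ∈ G
  independent : GIndependent χ X G
  semisimple : ∀ A, GProduct X G Set.univ A → SemisimpleAct A.act

end Pool.Agent.TH132.E
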