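import Pool.Agent.TH132.E.GMain

/-!
# The exceptional set for Tate classes: the theorem
-/

set_option autoImplicit false

open CategoryTheory AlgebraicGeometry TensorProduct

universe u v w

namespace Pool.Agent.TH132.E

open Pool.Agent.H914 Pool.Agent.H914.VarClass Pool.Agent.H914.VarClass.Obj
  Pool.Agent.H914.WeilCohomology Pool.Agent.TH125.Gal

section Lin

variable {K A B L : Type*} [Field K] [Ring A] [Algebra K A] [Ring B] [Algebra K B] [Field L]
  [Algebra K L]

lemma mem_of_tmul_mem' {N : Submodule K A} {t : A} (h : (1 : L) ⊗ₜ[K] t ∈ N.baseChange L) :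
    t ∈ N := by
  obtain ⟨ℓ, hℓ⟩ : ∃ ℓ : L →ₗ[K] K, ℓ 1 ≠ 0 := by
    by_contra hcon
    push Not at hcon
    exact one_ne_zero ((Module.forall_dual_apply_eq_zero_iff K (1 : L)).1 hcon)
  have h1 := coord_mem h ℓ
  rw [coord_tmul] at h1
  exact (Submodule.smul_mem_iff _ hℓ).1 h1

omit [Field L] [Algebra K L] in
lemma map_span_mem {V V' : Type*} [AddCommGroup V] [Module K V] [AddCommGroup V'] [Module K V']
    {S : Set V} {P : Submodule K V'} {f : V →ₗ[K] V'} (h : ∀ y ∈ S, f y ∈ P) {t : V}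
    (ht : t ∈ Submodule.span K S) : f t ∈ P :=
  (Submodule.span_le (p := P.comap f)).2 h ht

lemma stable_base_iff {f : A →ₐ[K] A} {N : Submodule K A} :
    (∀ x ∈ N.baseChange L, mapBase L f x ∈ N.baseChange L) ↔ ∀ x ∈ N, f x ∈ N := by
  constructor
  · intro h x hx
    have h1 := h _ (Submodule.tmul_mem_baseChange_of_mem 1 hx)
    rw [Algebra.TensorProduct.map_tmul, map_one] at h1
    exact mem_of_tmul_mem' h1
  · intro h x hx
    refine base_induction (P := fun x => mapBase L f x ∈ N.baseChange L) ?_ ?_ ?_ hx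
    · rw [map_zero]; exact Submodule.zero_mem _
    · intro x y hx hy; rw [map_add]; exact Submodule.add_mem _ hx hy
    · intro l a ha
      rw [Algebra.TensorProduct.map_tmul]
      exact Submodule.tmul_mem_baseChange_of_mem _ (h a ha)

lemma mapBase_inj {f g : A →ₐ[K] B} (h : mapBase L f = mapBase L g) (a : A) : f a = g a := by
  have h1 := congrArg (fun φ => φ ((1 : L) ⊗ₜ[K] a)) h
  simp only [Algebra.TensorProduct.map_tmul, map_one] at h1
  rw [← sub_eq_zero, ← TensorProduct.tmul_sub] at h1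
  exact sub_eq_zero.1 (tmul_injective _ h1)

end Lin

variable {k : Type u} [Field k] {𝒱 : VarClass k} {ops : CycleOps 𝒱}
  {W : WeilCohomology.{u, v} ops} {Γ : Type w} [Group Γ] {χ : Γ →* W.Kˣ} {G : Set (GVar W Γ)}

/-- The homogeneous part of a product of homogeneous classes. -/
lemma proj_cross {A B : 𝒱.Obj} {HA : ℕ → Set (W.H A)} {HB : ℕ → Set (W.H B)}
    (hA : ∀ i, ∀ a ∈ HA i, a ∈ W.gr A (2 * i)) (hB : ∀ i, ∀ b ∈ HB i, b ∈ W.gr B (2 * i))
    (j : ℕ) {i i' : ℕ} {a : W.H A} {b : W.H B} (ha : a ∈ HA i) (hb : b ∈ HB i') :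
    proj (W.isInternal (A.prod B)) (2 * j) (W.map (fst A B) a * W.map (snd A B) b) ∈
      Submodule.span W.K (crossProducts (W.map (fst A B)) (W.map (snd A B)) HA HB j) := by
  have h3 : W.map (fst A B) a * W.map (snd A B) b ∈ W.gr (A.prod B) (2 * i + 2 * i') :=
    W.mul_mem (W.map_mem _ (hA i a ha)) (W.map_mem _ (hB i' b hb))
  by_cases hij : i + i' = j
  · have h4 : proj (W.isInternal (A.prod B)) (2 * j) (W.map (fst A B) a * W.map (snd A B) b) =
        W.map (fst A B) a * W.map (snd A B) b := by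
      apply proj_same
      rw [← hij, mul_add]
      exact h3
    rw [h4]
    exact Submodule.subset_span ⟨i, i', a, b, hij, ha, hb, rfl⟩
  · rw [proj_ne _ h3 (by omega)]
    exact Submodule.zero_mem _

lemma tate_mem_gr {A : GVar W Γ} : ∀ i, ∀ a ∈ tate χ A i, a ∈ W.gr A.X (2 * i) :=
  fun _ _ h => h.1

lemma splitsO_of_tateSplits {A B : GVar W Γ} {υ}
    (h : TateSplits χ A B (prodG A B υ)) :
    SplitsO (glev Γ) (gmul χ) (govar A) (govar B)
      (fun o => mapBase W.K (gact (prodG A B υ) o)) := by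
  rw [tateSplits_iff] at h
  have key : ∀ m, ∀ t : W.H (A.X.prod B.X), TVec (glev Γ) (gmul χ) (govar (prodG A B υ)) m t →
      t ∈ Submodule.span W.K
        (tProducts (glev Γ) (gmul χ) (govar A) (govar B) : Set (W.H (A.X.prod B.X))) := by
    intro m t ht
    rcases tvec_tate ht with h0 | ⟨j, rfl, hj⟩
    · rw [h0]
      have h1 : ∀ P : Submodule W.K (W.H (A.X.prod B.X)), (0 : W.H (A.X.prod B.X)) ∈ P :=
        fun P => P.zero_mem
      exact h1 _
    · have h2 := h j t hj
      have h3 : crossProducts (W.map (fst A.X B.X)) (W.map (snd A.X B.X)) (tate χ A)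
          (tate χ B) j ⊆
          (tProducts (glev Γ) (gmul χ) (govar A) (govar B) : Set (W.H (A.X.prod B.X))) := by
        rintro y ⟨i, i', a, b, _, ha, hb, rfl⟩
        exact ⟨i, i', a, b, tate_tvec ha, tate_tvec hb, rfl⟩
      exact Submodule.span_mono h3 h2
  exact key

lemma proj_tprod {A B : GVar W Γ} (j : ℕ) {n n' : ℤ} {a : W.H A.X} {b : W.H B.X}
    (ha : TVec (glev Γ) (gmul χ) (govar A) n a) (hb : TVec (glev Γ) (gmul χ) (govar B) n' b) :
    proj (W.isInternal (A.X.prod B.X)) (2 * j)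
      (W.map (fst A.X B.X) a * W.map (snd A.X B.X) b) ∈ Submodule.span W.K
        (crossProducts (W.map (fst A.X B.X)) (W.map (snd A.X B.X)) (tate χ A) (tate χ B) j) := by
  rcases tvec_tate ha with rfl | ⟨i, rfl, hi⟩
  · rw [map_zero, zero_mul, map_zero]
    exact Submodule.zero_mem _
  rcases tvec_tate hb with rfl | ⟨i', rfl, hi'⟩
  · rw [map_zero, mul_zero, map_zero]
    exact Submodule.zero_mem _
  exact proj_cross tate_mem_gr tate_mem_gr j hi hi'

lemma tateSplits_of_splitsO {A B : GVar W Γ} {υ}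
    (h : SplitsO (glev Γ) (gmul χ) (govar A) (govar B)
      (fun o => mapBase W.K (gact (prodG A B υ) o))) : TateSplits χ A B (prodG A B υ) := by
  rw [tateSplits_iff]
  have key : ∀ j, ∀ t : W.H (A.X.prod B.X), t ∈ tate χ (prodG A B υ) j →
      t ∈ Submodule.span W.K
        (crossProducts (W.map (fst A.X B.X)) (W.map (snd A.X B.X)) (tate χ A) (tate χ B) j) := by
    intro j t ht
    have h1 : t ∈ Submodule.span W.K
        (tProducts (glev Γ) (gmul χ) (govar A) (govar B) : Set (W.H (A.X.prod B.X))) :=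
      h j t (tate_tvec (A := prodG A B υ) ht)
    have h2 : proj (W.isInternal (A.X.prod B.X)) (2 * j) t = t := proj_same _ ht.1
    rw [← h2]
    refine map_span_mem (S := (tProducts (glev Γ) (gmul χ) (govar A) (govar B) :
      Set (W.H (A.X.prod B.X)))) (fun y hy => ?_) h1
    obtain ⟨n, n', a, b, ha, hb, rfl⟩ := hy
    exact proj_tprod j ha hb
  exact key

lemma govar_prod {A B : GVar W Γ} {υ'} (hυ' : ProdAct (govar A) (govar B) υ')
    (h : prodO (govar A) (govar B) υ' ∈ govar '' G) :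
    ∃ υ, prodG A B υ ∈ G ∧ IsProdVar A B (prodG A B υ) ∧
      υ' = fun o => mapBase W.K (gact (prodG A B υ) o) := by
  obtain ⟨⟨CX, Cact⟩, hC, hCeq⟩ := h
  have h1 : CX = A.X.prod B.X := congrArg OVar.X hCeq
  subst h1
  have h2 : (fun o => mapBase W.K (gact ⟨A.X.prod B.X, Cact⟩ o)) = υ' :=
    eq_of_heq (OVar.mk.inj hCeq).2
  subst h2
  refine ⟨Cact, hC, IsProdVar.mk Cact ?_ ?_, rfl⟩
  · intro g a
    have h3 : mapBase W.K (gact ⟨A.X.prod B.X, Cact⟩ (some g))
        (mapBase W.K (W.map (fst A.X B.X)) ((1 : W.K) ⊗ₜ[W.K] a)) =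
          mapBase W.K (W.map (fst A.X B.X)) (mapBase W.K (gact A (some g))
            ((1 : W.K) ⊗ₜ[W.K] a)) := hυ'.fst (some g) _
    have h4 : (1 : W.K) ⊗ₜ[W.K] (Cact g (W.map (fst A.X B.X) a)) =
        (1 : W.K) ⊗ₜ[W.K] (W.map (fst A.X B.X) (A.act g a)) := h3
    rw [← sub_eq_zero, ← TensorProduct.tmul_sub] at h4
    exact sub_eq_zero.1 (tmul_injective _ h4)
  · intro g a
    have h3 : mapBase W.K (gact ⟨A.X.prod B.X, Cact⟩ (some g))
        (mapBase W.K (W.map (snd A.X B.X)) ((1 : W.K) ⊗ₜ[W.K] a)) =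
          mapBase W.K (W.map (snd A.X B.X)) (mapBase W.K (gact B (some g))
            ((1 : W.K) ⊗ₜ[W.K] a)) := hυ'.snd (some g) _
    have h4 : (1 : W.K) ⊗ₜ[W.K] (Cact g (W.map (snd A.X B.X) a)) =
        (1 : W.K) ⊗ₜ[W.K] (W.map (snd A.X B.X) (B.act g a)) := h3
    rw [← sub_eq_zero, ← TensorProduct.tmul_sub] at h4
    exact sub_eq_zero.1 (tmul_injective _ h4)

variable {ι : Type} {X : ι → GVar W Γ}

lemma isProdSet_govar {S : Set ι} {A : OVar W W.K (Option Γ)}
    (h : IsProdSet (fun i => govar (X i)) (govar '' G) S A) :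
    ∃ B, GProduct X G S B ∧ A = govar B := by
  induction h with
  | one i hi => exact ⟨X i, GProduct.one i hi, rfl⟩
  | mul A B υ _ _ hυ hυG ih1 ih2 =>
    obtain ⟨A, hA, rfl⟩ := ih1
    obtain ⟨B, hB, rfl⟩ := ih2
    obtain ⟨υ', hC, hP, rfl⟩ := govar_prod hυ hυG
    exact ⟨prodG A B υ', GProduct.prod A B _ hA hB hP hC, rfl⟩

lemma gProduct_govar {S : Set ι} {A : GVar W Γ} (h : GProduct X G S A) :
    IsProdSet (fun i => govar (X i)) (govar '' G) S (govar A) := by
  induction h with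
  | one i hi => exact IsProdSet.one i hi
  | prod A B C _ _ hP hC ih1 ih2 =>
    obtain ⟨υ, rfl⟩ := exists_prodG hP
    exact IsProdSet.mul _ _ _ ih1 ih2 (prodAct_govar hP) ⟨prodG A B υ, hC, rfl⟩

variable [DecidableEq ι]

lemma gTower_nonempty {J : Finset ι} {A : GVar W Γ} (h : GTowerOf X G J A) : J.Nonempty := by
  cases h with
  | one i A h => exact Finset.singleton_nonempty i
  | prod i J A B C hi hA hB hP hC => exact Finset.insert_nonempty i J

lemma gTower_govar {J : Finset ι} {A : GVar W Γ} (h : GTowerOf X G J A) :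
    IsTowerO (fun i => govar (X i)) (govar '' G) J (govar A) := by
  induction h with
  | one i A hA => exact IsTowerO.one i _ (gProduct_govar hA)
  | prod i J A B C hi hA hB hP hC ih =>
    obtain ⟨υ, rfl⟩ := exists_prodG hP
    exact IsTowerO.cons i J _ _ _ hi (gTower_nonempty hB) (gProduct_govar hA) ih
      (prodAct_govar hP) ⟨prodG A B υ, hC, rfl⟩

omit [DecidableEq ι] in
lemma GProduct.mem' (hX : ∀ i, X i ∈ G) {S : Set ι} {A : GVar W Γ} (h : GProduct X G S A) :
    A ∈ G := by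
  cases h with
  | one i hi => exact hX i
  | prod A B C hA hB hP hC => exact hC

omit [DecidableEq ι] in
lemma GProduct.mono' {S S' : Set ι} (hS : S ⊆ S') {A : GVar W Γ} (h : GProduct X G S A) :
    GProduct X G S' A := by
  induction h with
  | one i hi => exact GProduct.one i (hS hi)
  | prod A B C _ _ hP hC ih1 ih2 => exact GProduct.prod A B C ih1 ih2 hP hC

lemma GTowerOf.gProduct {J : Finset ι} {A : GVar W Γ} (h : GTowerOf X G J A) :
    GProduct X G Set.univ A := by
  induction h with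
  | one i A h => exact h.mono' (Set.subset_univ _)
  | prod i J A B C hi hA hB hP hC ih =>
    exact GProduct.prod A B C (hA.mono' (Set.subset_univ _)) ih hP hC

omit [DecidableEq ι] in
lemma allReducible_galois (hG : GaloisClass χ G) {A : GVar W Γ} (hA : A ∈ G)
    (hs : SemisimpleAct A.act) : AllReducible (glev Γ) (opSp (govar A)) := by
  rintro D ⟨Δ, hΔ, rfl⟩ N hN
  have key : ∀ N : Submodule W.K (W.H A.X), Stable (fun o : (insert none
      (some '' (Δ : Set Γ)) : Set (Option Γ)) => (opSp (govar A)).τ o) N ↔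
        (∀ x ∈ N, gradeOp W A.X x ∈ N) ∧ ∀ g ∈ Δ, ∀ x ∈ N, A.act g x ∈ N := by
    intro N
    constructor
    · intro h
      refine ⟨?_, fun g hg => ?_⟩
      · exact (stable_base_iff (L := W.K) (f := gradeOp W A.X)).1 (h ⟨none, Or.inl rfl⟩)
      · exact (stable_base_iff (L := W.K) (f := (A.act g : W.H A.X →ₐ[W.K] W.H A.X))).1
          (h ⟨some g, Or.inr ⟨g, hg, rfl⟩⟩)
    · rintro ⟨h1, h2⟩ ⟨o, ho⟩
      rcases ho with rfl | ⟨g, hg, rfl⟩
      · exact (stable_base_iff (L := W.K) (f := gradeOp W A.X)).2 h1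
      · exact (stable_base_iff (L := W.K) (f := (A.act g : W.H A.X →ₐ[W.K] W.H A.X))).2 (h2 g hg)
  obtain ⟨hN1, hN2⟩ := (key N).1 hN
  obtain ⟨N', hN', hc⟩ := hs Δ hΔ N hN2
  have hle : N ≤ ⨆ i, N ⊓ W.gr A.X i :=
    stable_le_iSup (W.isInternal A.X) (two_pow_injective (K := W.K)) hN1
  obtain ⟨N'', h1, h2, h3⟩ := exists_graded_compl (W.isInternal A.X) (n := 2 * A.X.dim + 1)
    (fun i hi => W.gr_eq_bot A.X i (by omega))
    (S := {f | ∃ g ∈ Δ, f = (A.act g).toLinearMap}) (by
      rintro _ ⟨g, hg, rfl⟩ i a ha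
      exact (hG.galois A hA).gr_mem g i a ha) hle (by
      rintro _ ⟨g, hg, rfl⟩ x hx
      exact hN2 g hg x hx) (by
      rintro _ ⟨g, hg, rfl⟩ x hx
      exact hN' g hg x hx) hc
  exact ⟨N'', (key N'').2 ⟨h1 _, fun g hg x hx => h2 _ ⟨g, hg, rfl⟩ x hx⟩, h3⟩

omit [DecidableEq ι] in
lemma span_tvec_tate (Z : GVar W Γ) :
    Submodule.span W.K {b : W.H Z.X | ∃ n, TVec (glev Γ) (gmul χ) (govar Z) n b} =
      Submodule.span W.K (⋃ j, tate χ Z j) := by
  apply le_antisymm
  · rw [Submodule.span_le]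
    rintro b ⟨n, hb⟩
    rcases tvec_tate hb with rfl | ⟨j, _, hj⟩
    · exact Submodule.zero_mem _
    · exact Submodule.subset_span (Set.mem_iUnion.2 ⟨j, hj⟩)
  · rw [Submodule.span_le]
    intro b hb
    obtain ⟨j, hj⟩ := Set.mem_iUnion.1 hb
    exact Submodule.subset_span ⟨j, tate_tvec hj⟩

/-- **The exceptional set for Tate classes.** -/
theorem tate_exceptional (hG : GaloisClass χ G) (hX : IndependentFamily χ X G) (Z : GVar W Γ) :
    ∃ E : Finset ι, E.card + numTate χ Z ≤ totalBetti W Z.X ∧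
      ∀ J : Finset ι, Disjoint J E → ∀ A, GTowerOf X G J A → ∀ C, IsProdVar A Z C →
        TateSplits χ A Z C := by
  obtain ⟨E, hE, h⟩ := exceptional (G := govar '' G) (c := gmul χ) (𝓛 := glev Γ) glev_directed
    (gmul_ne χ) (oclass_galois hG) (X := fun i => govar (X i)) (fun i => ⟨X i, hX.mem i, rfl⟩) (by
      intro i A B υ hA hB hυ hυG
      obtain ⟨A, hA', rfl⟩ := isProdSet_govar hA
      obtain ⟨B, hB', rfl⟩ := isProdSet_govar hB
      obtain ⟨υ', hC, hP, rfl⟩ := govar_prod hυ hυG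
      exact splitsO_of_tateSplits (hX.independent i A B _ hA' hB' hP hC)) (by
      intro J A hA
      have hA' := hA.prodSet
      obtain ⟨B, hB, rfl⟩ := isProdSet_govar hA'
      exact allReducible_galois hG (hB.mem' hX.mem)
        (hX.semisimple B (hB.mono' (Set.subset_univ _)))) (govar Z)
  refine ⟨E, ?_, fun J hJ A hA C hC => ?_⟩
  · have h1 := span_tvec_tate (χ := χ) Z
    rw [numTate, totalBetti, ← h1]
    exact hE
  · obtain ⟨υ, rfl⟩ := exists_prodG hC
    have hυ := hC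
    exact tateSplits_of_splitsO (h J hJ (govar A) (gTower_govar hA) _ (prodAct_govar hυ))

end Pool.Agent.TH132.E
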