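import Pool.Agent.TH132.E.GFin

/-!
# The Tate conjecture for products with splitting Tate classes
-/

set_option autoImplicit false

open CategoryTheory AlgebraicGeometry TensorProduct

universe u v w

namespace Pool.Agent.TH132.E

open Pool.Agent.H914 Pool.Agent.H914.VarClass Pool.Agent.H914.VarClass.Obj
  Pool.Agent.H914.WeilCohomology Pool.Agent.TH125.Gal

variable {k : Type u} [Field k] {𝒱 : VarClass k} {ops : CycleOps 𝒱}
  {W : WeilCohomology.{u, v} ops}

lemma algSpan_mul {X : 𝒱.Obj} {i j : ℕ} {a b : W.H X}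
    (ha : a ∈ Submodule.span W.K (algClasses W X i))
    (hb : b ∈ Submodule.span W.K (algClasses W X j)) :
    a * b ∈ Submodule.span W.K (algClasses W X (i + j)) := by
  induction ha using Submodule.span_induction with
  | mem x hx =>
    obtain ⟨z, hz, rfl⟩ := hx
    induction hb using Submodule.span_induction with
    | mem y hy =>
      obtain ⟨w, hw, rfl⟩ := hy
      exact Submodule.subset_span ⟨ops.mul z w, ops.mul_mem hz hw, W.cl_mul z w⟩
    | zero => rw [mul_zero]; exact Submodule.zero_mem _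
    | add x y _ _ hx hy => rw [mul_add]; exact Submodule.add_mem _ hx hy
    | smul r x _ hx => rw [mul_smul_comm]; exact Submodule.smul_mem _ _ hx
  | zero => rw [zero_mul]; exact Submodule.zero_mem _
  | add x y _ _ hx hy => rw [add_mul]; exact Submodule.add_mem _ hx hy
  | smul r x _ hx => rw [smul_mul_assoc]; exact Submodule.smul_mem _ _ hx

lemma algSpan_map {X Y : 𝒱.Obj} (f : X ⟶ Y) {j : ℕ} {a : W.H Y}
    (ha : a ∈ Submodule.span W.K (algClasses W Y j)) :
    W.map f a ∈ Submodule.span W.K (algClasses W X j) := by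
  refine map_span_mem (f := (W.map f).toLinearMap) (fun y hy => ?_) ha
  obtain ⟨z, hz, rfl⟩ := hy
  exact Submodule.subset_span ⟨ops.pull f z, ops.pull_mem f hz, W.cl_pull f z⟩

lemma algSpan_push {X Y : 𝒱.Obj} (f : X ⟶ Y) {i j : ℕ} (hij : i + Y.dim = j + X.dim) {a : W.H X}
    (ha : a ∈ Submodule.span W.K (algClasses W X i)) :
    W.push f a ∈ Submodule.span W.K (algClasses W Y j) := by
  refine map_span_mem (f := W.push f) (fun y hy => ?_) ha
  obtain ⟨z, hz, rfl⟩ := hy
  exact Submodule.subset_span ⟨ops.push f z, ops.push_mem f hz hij, W.cl_push f z⟩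

lemma eq_zero_of_tr {X : 𝒱.Obj} {a : W.H X} (ha : a ∈ W.gr X (2 * X.dim)) (h : W.tr X a = 0) :
    a = 0 := by
  apply W.nondeg
  intro y
  refine gr_induction (W.isInternal X) (p := fun y => W.tr X (a * y) = 0) ?_ ?_ y
  · intro i y hy
    rcases Nat.eq_zero_or_pos i with rfl | hi
    · rw [W.gr_zero] at hy
      obtain ⟨r, rfl⟩ := Submodule.mem_span_singleton.1 hy
      rw [mul_smul_comm, mul_one, map_smul, h, smul_zero]
    · have h1 : a * y ∈ W.gr X (2 * X.dim + i) := W.mul_mem ha hy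
      rw [W.gr_eq_bot X _ (by omega)] at h1
      rw [(Submodule.mem_bot _).1 h1, map_zero]
  · intro y z hy hz
    rw [mul_add, map_add, hy, hz, add_zero]

lemma exists_top {X : 𝒱.Obj} (h : W.tr X ≠ 0) : ∃ b ∈ W.gr X (2 * X.dim), W.tr X b = 1 := by
  obtain ⟨a, ha⟩ := LinearMap.surjective h 1
  refine ⟨proj (W.isInternal X) (2 * X.dim) a, proj_mem _ _ _, ?_⟩
  rw [← ha]
  refine gr_induction (W.isInternal X) (p := fun a =>
    W.tr X (proj (W.isInternal X) (2 * X.dim) a) = W.tr X a) ?_ ?_ a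
  · intro i a ha
    by_cases hi : i = 2 * X.dim
    · subst hi
      rw [proj_same _ ha]
    · rw [proj_ne _ ha hi, map_zero, (W.isPoincareAlgebra X).tr_eq_zero ha hi]
  · intro a b ha hb
    rw [map_add, map_add, ha, hb, map_add]

lemma push_fst_mul' {A B : 𝒱.Obj} (a : W.H A) {b : W.H B} {n : ℕ} (hb : b ∈ W.gr B (2 * n)) :
    W.push (fst A B) (W.map (fst A B) a * W.map (snd A B) b) = W.tr B b • a := by
  rw [← sub_eq_zero]
  apply W.nondeg
  intro y
  rw [sub_mul, map_sub, sub_eq_zero, W.tr_push]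
  refine gr_induction (W.isInternal A) (p := fun y => W.tr (A.prod B) (W.map (fst A B) a *
    W.map (snd A B) b * W.map (fst A B) y) = W.tr A (W.tr B b • a * y)) ?_ ?_ y
  · intro i y hy
    have h1 : W.map (snd A B) b * W.map (fst A B) y = W.map (fst A B) y * W.map (snd A B) b := by
      rw [W.comm (W.map_mem (snd A B) hb) (W.map_mem (fst A B) hy)]
      rw [mul_assoc, pow_mul, neg_one_sq, one_pow, one_smul]
    rw [mul_assoc, h1, ← mul_assoc, ← map_mul, W.tr_prod, smul_mul_assoc, map_smul, smul_eq_mul,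
      mul_comm]
  · intro y z hy hz
    rw [map_add, mul_add, map_add, hy, hz, mul_add, map_add]

variable {Γ : Type w} [Group Γ] {χ : Γ →* W.Kˣ} {G : Set (GVar W Γ)}

lemma tate_top (hG : GaloisClass χ G) {A : GVar W Γ} (hA : A ∈ G) {b : W.H A.X}
    (hb : b ∈ W.gr A.X (2 * A.X.dim)) : b ∈ tate χ A A.X.dim := by
  refine ⟨hb, ⊤, inferInstance, fun g _ => ?_⟩
  have h1 := (hG.galois A hA).gr_mem g _ b hb
  rw [← sub_eq_zero]
  refine eq_zero_of_tr (Submodule.sub_mem _ h1 (Submodule.smul_mem _ _ hb)) ?_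
  rw [map_sub, (hG.galois A hA).tr_act g b, map_smul, smul_eq_mul, sub_self]

lemma tate_cross {A B : GVar W Γ} {υ} (h : IsProdVar A B (prodG A B υ)) {i j : ℕ} {a : W.H A.X}
    {b : W.H B.X} (ha : a ∈ tate χ A i) (hb : b ∈ tate χ B j) :
    W.map (fst A.X B.X) a * W.map (snd A.X B.X) b ∈ tate χ (prodG A B υ) (i + j) := by
  have h1 : Equivariant (A := prodG A B υ) (B := A) (fst A.X B.X) ∧
      Equivariant (A := prodG A B υ) (B := B) (snd A.X B.X) := by
    cases h with
    | mk _ h1 h2 => exact ⟨h1, h2⟩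
  obtain ⟨ha1, Δ, hΔ, ha2⟩ := ha
  obtain ⟨hb1, Δ', hΔ', hb2⟩ := hb
  refine ⟨?_, Δ ⊓ Δ', inferInstance, fun g hg => ?_⟩
  · have h2 := W.mul_mem (W.map_mem (fst A.X B.X) ha1) (W.map_mem (snd A.X B.X) hb1)
    rw [mul_add]
    exact h2
  · have e1 : υ g (W.map (fst A.X B.X) a) = W.map (fst A.X B.X) (A.act g a) := h1.1 g a
    have e2 : υ g (W.map (snd A.X B.X) b) = W.map (snd A.X B.X) (B.act g b) := h1.2 g b
    change υ g (W.map (fst A.X B.X) a * W.map (snd A.X B.X) b) = _
    rw [map_mul, e1, e2, ha2 g hg.1, hb2 g hg.2, map_smul, map_smul, smul_mul_smul_comm, pow_add]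
    rfl

/-- The Tate conjecture for products with splitting Tate classes. -/
lemma tateConjecture_prod_iff (hG : GaloisClass χ G) (ht : ∀ X ∈ G, W.tr X.X ≠ 0)
    {A B C : GVar W Γ} (hA : A ∈ G) (hB : B ∈ G) (hυ : IsProdVar A B C)
    (h : TateSplits χ A B C) :
    TateConjecture χ C ↔ TateConjecture χ A ∧ TateConjecture χ B := by
  obtain ⟨υ, rfl⟩ := exists_prodG hυ
  rw [tateSplits_iff] at h
  constructor
  · intro hAB
    constructor
    · intro j a ha1 ha2
      obtain ⟨b, hb, hb1⟩ := exists_top (ht B hB)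
      have h1 := tate_cross hυ (χ := χ) (i := j) ⟨ha1, ha2⟩ (tate_top hG hB hb)
      have h2 : W.map (fst A.X B.X) a * W.map (snd A.X B.X) b ∈
          Submodule.span W.K (algClasses W (A.X.prod B.X) (j + B.X.dim)) := hAB _ _ h1.1 h1.2
      have h3 := algSpan_push (fst A.X B.X) (i := j + B.X.dim) (j := j)
        (by rw [dim_prod]; ring) h2
      rwa [push_fst_mul' a hb, hb1, one_smul] at h3
    · intro j b hb1 hb2
      obtain ⟨a, ha, ha1⟩ := exists_top (ht A hA)
      have h1 := tate_cross hυ (χ := χ) (j := j) (tate_top hG hA ha) ⟨hb1, hb2⟩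
      have h2 : W.map (fst A.X B.X) a * W.map (snd A.X B.X) b ∈
          Submodule.span W.K (algClasses W (A.X.prod B.X) (A.X.dim + j)) := hAB _ _ h1.1 h1.2
      have h3 := algSpan_push (snd A.X B.X) (i := A.X.dim + j) (j := j)
        (by rw [dim_prod]; ring) h2
      rwa [W.push_snd, ha1, one_smul] at h3
  · rintro ⟨hA', hB'⟩ j t ht1 ht2
    have h1 := h j t ⟨ht1, ht2⟩
    have h2 : crossProducts (W.map (fst A.X B.X)) (W.map (snd A.X B.X)) (tate χ A) (tate χ B) j ⊆
        Submodule.span W.K (algClasses W (A.X.prod B.X) j) := by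
      rintro _ ⟨i, i', a, b, rfl, ha, hb, rfl⟩
      exact algSpan_mul (algSpan_map _ (hA' i a ha.1 ha.2)) (algSpan_map _ (hB' i' b hb.1 hb.2))
    exact Submodule.span_le.2 h2 h1

end Pool.Agent.TH132.E
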