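import Mathlib

/-!
# Operators acting by scalars on the summands of a direct sum
-/

set_option autoImplicit false

namespace Pool.Agent.TH132.E

section Mod

variable {K V ι : Type*} [Field K] [AddCommGroup V] [Module K V] [DecidableEq ι]
  {gr : ι → Submodule K V}

/-- The operator acting as `f i` on the `i`-th summand. -/
noncomputable def scalG (h : DirectSum.IsInternal gr) (f : ι → K) : Module.End K V :=
  (DirectSum.coeLinearMap gr) ∘ₗ
    (DirectSum.lmap (fun i => (f i • LinearMap.id : gr i →ₗ[K] gr i))) ∘ₗ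
      (LinearEquiv.ofBijective (DirectSum.coeLinearMap gr) h).symm.toLinearMap

lemma scalG_apply (h : DirectSum.IsInternal gr) (f : ι → K) {i : ι} {a : V} (ha : a ∈ gr i) :
    scalG h f a = f i • a := by
  have h1 : (LinearEquiv.ofBijective (DirectSum.coeLinearMap gr) h).symm a =
      DirectSum.lof K ι (fun i => gr i) i ⟨a, ha⟩ := by
    rw [LinearEquiv.symm_apply_eq]
    exact (DirectSum.coeLinearMap_lof gr i ⟨a, ha⟩).symm
  simp only [scalG, LinearMap.comp_apply, LinearEquiv.coe_coe]
  rw [h1]
  simp

lemma grG_ext (h : DirectSum.IsInternal gr) {W : Type*} [AddCommGroup W] [Module K W]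
    {F G : V →ₗ[K] W} (hFG : ∀ i, ∀ a ∈ gr i, F a = G a) : F = G := by
  have h1 : LinearMap.eqLocus F G = ⊤ := by
    rw [eq_top_iff, ← h.submodule_iSup_eq_top]
    exact iSup_le (fun i a ha => hFG i a ha)
  ext a
  have : a ∈ LinearMap.eqLocus F G := by rw [h1]; trivial
  exact this

lemma grG_induction (h : DirectSum.IsInternal gr) {p : V → Prop} (h0 : p 0)
    (hgr : ∀ i, ∀ a ∈ gr i, p a) (hadd : ∀ a b, p a → p b → p (a + b)) (a : V) : p a := by
  have ha : a ∈ iSup gr := by rw [h.submodule_iSup_eq_top]; trivial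
  exact Submodule.iSup_induction gr (motive := p) ha (fun i a ha => hgr i a ha) h0 hadd

/-- The projector onto the `i`-th summand. -/
noncomputable def projG (h : DirectSum.IsInternal gr) (i : ι) : Module.End K V :=
  scalG h (fun j => if j = i then 1 else 0)

lemma projG_same (h : DirectSum.IsInternal gr) {i : ι} {a : V} (ha : a ∈ gr i) :
    projG h i a = a := by
  rw [projG, scalG_apply h _ ha, if_pos rfl, one_smul]

lemma projG_ne (h : DirectSum.IsInternal gr) {i j : ι} {a : V} (ha : a ∈ gr i) (hij : i ≠ j) :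
    projG h j a = 0 := by
  rw [projG, scalG_apply h _ ha, if_neg hij, zero_smul]

lemma projG_mem (h : DirectSum.IsInternal gr) (i : ι) (a : V) : projG h i a ∈ gr i := by
  refine grG_induction h (p := fun a => projG h i a ∈ gr i) ?_ ?_ ?_ a
  · rw [map_zero]; exact Submodule.zero_mem _
  · intro j a ha
    by_cases hij : j = i
    · subst hij; rw [projG_same h ha]; exact ha
    · rw [projG_ne h ha hij]; exact Submodule.zero_mem _
  · intro a b ha hb
    rw [map_add]; exact Submodule.add_mem _ ha hb

lemma projG_scalG (h : DirectSum.IsInternal gr) (f : ι → K) (i : ι) (a : V) :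
    projG h i (scalG h f a) = f i • projG h i a := by
  refine grG_induction h (p := fun a => projG h i (scalG h f a) = f i • projG h i a) ?_ ?_ ?_ a
  · rw [map_zero, map_zero, smul_zero]
  · intro j a ha
    rw [scalG_apply h f ha, map_smul]
    by_cases hij : j = i
    · subst hij; rfl
    · rw [projG_ne h ha hij, smul_zero, smul_zero]
  · intro a b ha hb
    rw [map_add, map_add, ha, hb, map_add, smul_add]

lemma projG_sum (h : DirectSum.IsInternal gr) (a : V) :
    ∃ s : Finset ι, a = ∑ i ∈ s, projG h i a := by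
  classical
  refine grG_induction h (p := fun a => ∃ s : Finset ι, ∀ t, s ⊆ t → a = ∑ i ∈ t, projG h i a)
    ?_ ?_ ?_ a |>.imp fun s hs => hs s subset_rfl
  · exact ⟨∅, fun t _ => by simp⟩
  · intro i a ha
    refine ⟨{i}, fun t ht => ?_⟩
    rw [Finset.sum_eq_single i]
    · rw [projG_same h ha]
    · intro j _ hj
      exact projG_ne h ha (Ne.symm hj)
    · intro hi
      exact absurd (ht (Finset.mem_singleton_self i)) hi
  · rintro a b ⟨s, hs⟩ ⟨s', hs'⟩
    refine ⟨s ∪ s', fun t ht => ?_⟩
    simp only [map_add, Finset.sum_add_distrib]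
    rw [← hs t (Finset.union_subset_left ht), ← hs' t (Finset.union_subset_right ht)]

lemma eq_zero_of_projG (h : DirectSum.IsInternal gr) {a : V} (ha : ∀ i, projG h i a = 0) :
    a = 0 := by
  obtain ⟨s, hs⟩ := projG_sum h a
  rw [hs]
  exact Finset.sum_eq_zero fun i _ => ha i

/-- An eigenvector of the operator belongs to one of the summands, if the eigenvalues on the
summands are different. -/
lemma eigen_mem (h : DirectSum.IsInternal gr) {f : ι → K} (hf : Function.Injective f) {a : V}
    {μ : K} (ha : scalG h f a = μ • a) (ha0 : a ≠ 0) : ∃ i, f i = μ ∧ a ∈ gr i := by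
  have h1 : ∀ i, f i ≠ μ → projG h i a = 0 := by
    intro i hi
    have h2 := projG_scalG h f i a
    rw [ha, map_smul] at h2
    have h3 : (μ - f i) • projG h i a = 0 := by rw [sub_smul, h2, sub_self]
    exact (smul_eq_zero.1 h3).resolve_left (sub_ne_zero.2 (Ne.symm hi))
  by_cases hex : ∃ i, f i = μ
  · obtain ⟨i, hi⟩ := hex
    refine ⟨i, hi, ?_⟩
    have h4 : a - projG h i a = 0 := by
      apply eq_zero_of_projG h
      intro j
      rw [map_sub]
      by_cases hj : j = i
      · subst hj
        rw [projG_same h (projG_mem h j a), sub_self]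
      · rw [h1 j (fun hj' => hj (hf (hj'.trans hi.symm))),
          projG_ne h (projG_mem h i a) (Ne.symm hj), sub_self]
    rw [sub_eq_zero.1 h4]
    exact projG_mem h i a
  · push Not at hex
    exact absurd (eq_zero_of_projG h fun i => h1 i (hex i)) ha0

/-- A stable subspace is the sum of its intersections with the summands. -/
lemma stable_le_iSup [Module.Finite K V] (h : DirectSum.IsInternal gr) {f : ι → K}
    (hf : Function.Injective f) {N : Submodule K V} (hN : ∀ x ∈ N, scalG h f x ∈ N) :
    N ≤ ⨆ i, N ⊓ gr i := by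
  have h1 : (⨆ μ, (scalG h f).genEigenspace μ 1) = ⊤ := by
    rw [eq_top_iff, ← h.submodule_iSup_eq_top]
    refine iSup_le fun i x hx => ?_
    have h2 : x ∈ (scalG h f).genEigenspace (f i) 1 := by
      rw [Module.End.mem_genEigenspace_one]
      exact scalG_apply h f hx
    exact (le_iSup (fun μ => (scalG h f).genEigenspace μ 1) (f i)) h2
  have h3 := Submodule.inf_iSup_genEigenspace (f := scalG h f) (p := N) hN 1
  rw [h1, inf_top_eq] at h3
  refine h3.le.trans ?_
  refine iSup_le fun μ x hx => ?_
  obtain ⟨hxN, hx1⟩ := hx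
  rw [SetLike.mem_coe, Module.End.mem_genEigenspace_one] at hx1
  by_cases hx0 : x = 0
  · rw [hx0]; exact Submodule.zero_mem _
  · obtain ⟨i, _, hi⟩ := eigen_mem h hf hx1 hx0
    exact (le_iSup (fun i => N ⊓ gr i) i) ⟨hxN, hi⟩

lemma scalG_mem_of_iSup (h : DirectSum.IsInternal gr) {f : ι → K} {N : Submodule K V}
    (hN : N ≤ ⨆ i, N ⊓ gr i) {x : V} (hx : x ∈ N) : scalG h f x ∈ N := by
  have h1 : ∀ x ∈ ⨆ i, N ⊓ gr i, scalG h f x ∈ N := by
    intro x hx
    refine Submodule.iSup_induction _ (motive := fun x => scalG h f x ∈ N) hx ?_ ?_ ?_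
    · rintro i x ⟨hxN, hxi⟩
      rw [scalG_apply h f hxi]
      exact N.smul_mem _ hxN
    · rw [map_zero]; exact N.zero_mem
    · intro x y hx hy
      rw [map_add]; exact N.add_mem hx hy
  exact h1 x (hN hx)

end Mod

section Alg

variable {K A ι : Type*} [Field K] [Ring A] [Algebra K A] [DecidableEq ι] [AddMonoid ι]
  {gr : ι → Submodule K A}

/-- The algebra endomorphism acting as `f i` on the `i`-th summand. -/
noncomputable def scalAlg (h : DirectSum.IsInternal gr) (h1 : (1 : A) ∈ gr 0)
    (hmul : ∀ i j a b, a ∈ gr i → b ∈ gr j → a * b ∈ gr (i + j)) (f : ι → K) (f0 : f 0 = 1)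
    (fadd : ∀ i j, f (i + j) = f i * f j) : A →ₐ[K] A :=
  AlgHom.ofLinearMap (scalG h f) (by rw [scalG_apply h f h1, f0, one_smul]) (by
    intro x y
    refine grG_induction h (p := fun x => scalG h f (x * y) = scalG h f x * scalG h f y)
      ?_ ?_ ?_ x
    · rw [zero_mul, map_zero, zero_mul]
    · intro i a ha
      refine grG_induction h (p := fun y => scalG h f (a * y) = scalG h f a * scalG h f y)
        ?_ ?_ ?_ y
      · rw [mul_zero, map_zero, mul_zero]
      · intro j b hb
        rw [scalG_apply h f (hmul i j a b ha hb), scalG_apply h f ha, scalG_apply h f hb, fadd,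
          smul_mul_smul_comm]
      · intro b b' hb hb'
        rw [mul_add, map_add, hb, hb', map_add, mul_add]
    · intro a a' ha ha'
      rw [add_mul, map_add, ha, ha', map_add, add_mul])

lemma scalAlg_apply (h : DirectSum.IsInternal gr) (h1 : (1 : A) ∈ gr 0)
    (hmul : ∀ i j a b, a ∈ gr i → b ∈ gr j → a * b ∈ gr (i + j)) (f : ι → K) (f0 : f 0 = 1)
    (fadd : ∀ i j, f (i + j) = f i * f j) (x : A) :
    scalAlg h h1 hmul f f0 fadd x = scalG h f x := rfl

end Alg

end Pool.Agent.TH132.E
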