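import Pool.Agent.TH132.E.GDefs
import Pool.Agent.TH132.E.GrG
import Pool.Agent.TH132.E.Exc

/-!
# The exceptional set for Tate classes
-/

set_option autoImplicit false

open CategoryTheory AlgebraicGeometry TensorProduct

universe u v w

namespace Pool.Agent.TH132.E

open Pool.Agent.H914 Pool.Agent.H914.VarClass Pool.Agent.H914.VarClass.Obj
  Pool.Agent.H914.WeilCohomology Pool.Agent.TH125.Gal

section Lin

variable {F V : Type*} [Field F] [AddCommGroup V] [Module F V]

/-- A graded complement stable under operators which respect the grading. -/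
lemma exists_graded_compl {gr : ℕ → Submodule F V} (h : DirectSum.IsInternal gr) {n : ℕ}
    (hn : ∀ i, n ≤ i → gr i = ⊥) {S : Set (Module.End F V)} (hS : ∀ g ∈ S, ∀ i, ∀ a ∈ gr i, g a ∈ gr i)
    {N N' : Submodule F V} (hN : N ≤ ⨆ i, N ⊓ gr i) (hNS : ∀ g ∈ S, ∀ x ∈ N, g x ∈ N)
    (hN'S : ∀ g ∈ S, ∀ x ∈ N', g x ∈ N') (hc : IsCompl N N') :
    ∃ N'' : Submodule F V, (∀ f : ℕ → F, ∀ x ∈ N'', scalG h f x ∈ N'') ∧
      (∀ g ∈ S, ∀ x ∈ N'', g x ∈ N'') ∧ IsCompl N N'' := by
  classical
  -- the projection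
  set P : Module.End F V := N.subtype ∘ₗ N.projectionOnto N' hc with hP
  have hPN : ∀ x, P x ∈ N := fun x => (N.projectionOnto N' hc x).2
  have hPid : ∀ x ∈ N, P x = x := fun x hx => by
    rw [hP, LinearMap.comp_apply]
    have h0 : N.projectionOnto N' hc x = ⟨x, hx⟩ :=
      Submodule.projectionOnto_apply_left hc ⟨x, hx⟩
    rw [h0]
    rfl
  have hPg : ∀ g ∈ S, ∀ x, P (g x) = g (P x) := by
    intro g hg x
    have hx : x ∈ N ⊔ N' := by rw [hc.sup_eq_top]; trivial
    obtain ⟨y, hy, z, hz, rfl⟩ := Submodule.mem_sup.1 hx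
    have hz0 : ∀ z ∈ N', P z = 0 := fun z hz => by
      rw [hP, LinearMap.comp_apply]
      have h0 := (Submodule.projectionOnto_apply_eq_zero_iff hc (x := z)).2 hz
      rw [h0, map_zero]
    rw [map_add, map_add, hPid _ (hNS g hg y hy), hz0 _ (hN'S g hg z hz), map_add, hPid y hy,
      hz0 z hz, map_add, map_zero]
  have hpr : ∀ i, ∀ x ∈ N, projG h i x ∈ N := fun i x hx => scalG_mem_of_iSup h hN hx
  set Q : Module.End F V := ∑ i ∈ Finset.range n, projG h i ∘ₗ P ∘ₗ projG h i with hQ
  have hQapp : ∀ x, Q x = ∑ i ∈ Finset.range n, projG h i (P (projG h i x)) := by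
    intro x
    rw [hQ, LinearMap.sum_apply]
    rfl
  have hsum : ∀ x, ∑ i ∈ Finset.range n, projG h i x = x := by
    intro x
    refine grG_induction h (p := fun x => ∑ i ∈ Finset.range n, projG h i x = x) ?_ ?_ ?_ x
    · simp
    · intro j a ha
      by_cases hj : j < n
      · rw [Finset.sum_eq_single j]
        · exact projG_same h ha
        · intro i _ hi
          exact projG_ne h ha (Ne.symm hi)
        · intro hj'
          exact absurd (Finset.mem_range.2 hj) hj'
      · rw [hn j (by omega)] at ha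
        rw [(Submodule.mem_bot _).1 ha]
        simp
    · intro a b ha hb
      simp only [map_add, Finset.sum_add_distrib]
      rw [ha, hb]
  have hproj : LinearMap.IsProj N Q := by
    refine ⟨fun x => ?_, fun x hx => ?_⟩
    · rw [hQapp]
      exact Submodule.sum_mem _ fun i _ => hpr i _ (hPN _)
    · rw [hQapp]
      have : ∀ i ∈ Finset.range n, projG h i (P (projG h i x)) = projG h i x := by
        intro i _
        rw [hPid _ (hpr i x hx), projG_same h (projG_mem h i x)]
      rw [Finset.sum_congr rfl this, hsum]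
  have hQgr : ∀ j, ∀ x ∈ gr j, Q x ∈ gr j := by
    intro j x hx
    rw [hQapp]
    refine Submodule.sum_mem _ fun i _ => ?_
    by_cases hij : j = i
    · subst hij; exact projG_mem h j _
    · rw [projG_ne h hx hij, map_zero, map_zero]
      exact Submodule.zero_mem _
  refine ⟨LinearMap.ker Q, ?_, ?_, hproj.isCompl⟩
  · intro f x hx
    have hcomm : ∀ x, Q (scalG h f x) = scalG h f (Q x) := by
      intro x
      refine grG_induction h (p := fun x => Q (scalG h f x) = scalG h f (Q x)) ?_ ?_ ?_ x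
      · simp
      · intro j a ha
        rw [scalG_apply h f ha, map_smul, scalG_apply h f (hQgr j a ha)]
      · intro a b ha hb
        rw [map_add, map_add, ha, hb, map_add, map_add]
    rw [LinearMap.mem_ker] at hx ⊢
    rw [hcomm, hx, map_zero]
  · intro g hg x hx
    rw [LinearMap.mem_ker] at hx ⊢
    have hgproj : ∀ i x, projG h i (g x) = g (projG h i x) := by
      intro i x
      refine grG_induction h (p := fun x => projG h i (g x) = g (projG h i x)) ?_ ?_ ?_ x
      · simp
      · intro j a ha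
        by_cases hij : j = i
        · subst hij
          rw [projG_same h (hS g hg j a ha), projG_same h ha]
        · rw [projG_ne h (hS g hg j a ha) hij, projG_ne h ha hij, map_zero]
      · intro a b ha hb
        rw [map_add, map_add, ha, hb, map_add, map_add]
    have h1 : Q (g x) = g (Q x) := by
      rw [hQapp, hQapp, map_sum]
      refine Finset.sum_congr rfl fun i _ => ?_
      rw [hgproj, hPg g hg, hgproj]
    rw [h1, hx, map_zero]

end Lin

section Comm

variable {K A B L : Type*} [Field K] [Ring A] [Algebra K A] [Ring B] [Algebra K B] [Field L]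
  [Algebra K L]

lemma mapBase_comm {f : A →ₐ[K] B} {α : A →ₐ[K] A} {β : B →ₐ[K] B}
    (h : ∀ a, β (f a) = f (α a)) (x : L ⊗[K] A) :
    mapBase L β (mapBase L f x) = mapBase L f (mapBase L α x) := by
  refine tmul_induction (P := fun x => mapBase L β (mapBase L f x) =
    mapBase L f (mapBase L α x)) ?_ ?_ ?_ x
  · simp only [map_zero]
  · intro x y hx hy
    simp only [map_add, hx, hy]
  · intro l a
    simp only [Algebra.TensorProduct.map_tmul]
    rw [h]

lemma formBase_comm {t : A →ₗ[K] K} {α : A →ₐ[K] A} {c : K}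
    (h : ∀ a, t (α a) = c * t a) (x : K ⊗[K] A) :
    formBase K t (mapBase K α x) = c * formBase K t x := by
  refine tmul_induction (P := fun x => formBase K t (mapBase K α x) = c * formBase K t x)
    ?_ ?_ ?_ x
  · simp only [map_zero, mul_zero]
  · intro x y hx hy
    simp only [map_add, hx, hy, mul_add]
  · intro l a
    rw [Algebra.TensorProduct.map_tmul, formBase_tmul, formBase_tmul, h, map_mul]
    simp only [Algebra.algebraMap_self, RingHom.id_apply, AlgHom.id_apply]
    ring

end Comm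

section Num

variable {K : Type*} [Field K] [CharZero K]

lemma two_pow_injective : Function.Injective fun i : ℕ => (2 : K) ^ i := by
  intro a b h
  have h1 : ((2 ^ a : ℕ) : K) = ((2 ^ b : ℕ) : K) := by push_cast; exact h
  exact Nat.pow_right_injective (le_refl 2) (Nat.cast_injective h1)

lemma two_pow_eq_zpow {i : ℕ} {m : ℤ} (h : (2 : K) ^ i = 4 ^ m) : ∃ j : ℕ, m = j ∧ i = 2 * j := by
  have h4 : (4 : K) = 2 ^ 2 := by norm_num
  rcases Int.eq_nat_or_neg m with ⟨n, rfl | rfl⟩
  · refine ⟨n, rfl, two_pow_injective (K := K) ?_⟩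
    change (2 : K) ^ i = 2 ^ (2 * n)
    rw [h, zpow_natCast, h4, pow_mul]
  · rw [zpow_neg, zpow_natCast] at h
    have h6 : (4 : K) ^ n ≠ 0 := pow_ne_zero _ (by norm_num)
    have h1 : (2 : K) ^ i * 4 ^ n = 1 := by rw [h, inv_mul_cancel₀ h6]
    rw [h4, ← pow_mul, ← pow_add] at h1
    have h2 : i + 2 * n = 0 := two_pow_injective (K := K) (by
      change (2 : K) ^ (i + 2 * n) = 2 ^ 0
      rw [h1, pow_zero])
    exact ⟨0, by rw [show n = 0 by omega]; rfl, by omega⟩

end Num

variable {k : Type u} [Field k] {𝒱 : VarClass k} {ops : CycleOps 𝒱}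
  {W : WeilCohomology.{u, v} ops} {Γ : Type w} [Group Γ]

instance : CharZero W.K := W.charZero

/-- The operator acting as `2 ^ i` in degree `i`. -/
noncomputable def gradeOp (W : WeilCohomology.{u, v} ops) (X : 𝒱.Obj) : W.H X →ₐ[W.K] W.H X :=
  scalAlg (W.isInternal X) (W.isPoincareAlgebra X).one_mem
    (fun _ _ _ _ ha hb => W.mul_mem ha hb) (fun i => (2 : W.K) ^ i) (pow_zero _)
    (fun i j => pow_add _ i j)

lemma gradeOp_gr {X : 𝒱.Obj} {i : ℕ} {a : W.H X} (ha : a ∈ W.gr X i) :
    gradeOp W X a = (2 : W.K) ^ i • a := scalG_apply _ _ ha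

lemma gradeOp_map {X Y : 𝒱.Obj} (f : X ⟶ Y) (a : W.H Y) :
    gradeOp W X (W.map f a) = W.map f (gradeOp W Y a) := by
  refine gr_induction (W.isInternal Y) (p := fun a => gradeOp W X (W.map f a) =
    W.map f (gradeOp W Y a)) ?_ ?_ a
  · intro i a ha
    rw [gradeOp_gr ha, gradeOp_gr (W.map_mem f ha), map_smul]
  · intro a b ha hb
    simp only [map_add, ha, hb]

lemma gradeOp_tr {X : 𝒱.Obj} (a : W.H X) : W.tr X (gradeOp W X a) = 4 ^ X.dim * W.tr X a := by
  refine gr_induction (W.isInternal X) (p := fun a => W.tr X (gradeOp W X a) =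
    4 ^ X.dim * W.tr X a) ?_ ?_ a
  · intro i a ha
    rw [gradeOp_gr ha, map_smul, smul_eq_mul]
    by_cases hi : i = 2 * X.dim
    · rw [hi, pow_mul]
      norm_num
    · rw [(W.isPoincareAlgebra X).tr_eq_zero ha hi, mul_zero, mul_zero]
  · intro a b ha hb
    simp only [map_add, ha, hb, mul_add]

/-- The operators: the grading operator and the elements of the group. -/
noncomputable def gact (A : GVar W Γ) : Option Γ → (W.H A.X →ₐ[W.K] W.H A.X)
  | none => gradeOp W A.X
  | some g => (A.act g : W.H A.X →ₐ[W.K] W.H A.X)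

/-- The variety with the operators. -/
noncomputable def govar (A : GVar W Γ) : OVar W W.K (Option Γ) :=
  ⟨A.X, fun o => mapBase W.K (gact A o)⟩

/-- The multipliers. -/
def gmul (χ : Γ →* W.Kˣ) : Option Γ → W.K
  | none => 4
  | some g => (χ g : W.K)

/-- The levels. -/
def glev (Γ : Type w) [Group Γ] : Set (Set (Option Γ)) :=
  {D | ∃ Δ : Subgroup Γ, Δ.FiniteIndex ∧ D = insert none (some '' (Δ : Set Γ))}

lemma gmul_ne (χ : Γ →* W.Kˣ) (o : Option Γ) : gmul χ o ≠ 0 := by
  cases o with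
  | none => exact (by norm_num : (4 : W.K) ≠ 0)
  | some g => exact (χ g).ne_zero

lemma glev_directed : Directed' (glev Γ) where
  nonempty := ⟨_, ⊤, inferInstance, rfl⟩
  inter := by
    rintro _ ⟨Δ, hΔ, rfl⟩ _ ⟨Δ', hΔ', rfl⟩
    refine ⟨_, ⟨Δ ⊓ Δ', inferInstance, rfl⟩, ?_⟩
    intro o ho
    rcases ho with rfl | ⟨g, hg, rfl⟩
    · exact ⟨Or.inl rfl, Or.inl rfl⟩
    · exact ⟨Or.inr ⟨g, hg.1, rfl⟩, Or.inr ⟨g, hg.2, rfl⟩⟩

lemma tate_tvec {χ : Γ →* W.Kˣ} {A : GVar W Γ} {j : ℕ} {t : W.H A.X} (h : t ∈ tate χ A j) :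
    TVec (glev Γ) (gmul χ) (govar A) j t := by
  obtain ⟨hgr, Δ, hΔ, h⟩ := h
  refine ⟨_, ⟨Δ, hΔ, rfl⟩, ?_⟩
  have key : ∀ o ∈ insert none (some '' (Δ : Set Γ)),
      mapBase W.K (gact A o) ((1 : W.K) ⊗ₜ[W.K] t) =
        gmul χ o ^ (j : ℤ) • ((1 : W.K) ⊗ₜ[W.K] t) := by
    intro o ho
    rw [Algebra.TensorProduct.map_tmul, map_one, ← TensorProduct.tmul_smul, zpow_natCast]
    congr 1
    rcases ho with rfl | ⟨g, hg, rfl⟩
    · change gradeOp W A.X t = 4 ^ j • t
      rw [gradeOp_gr hgr, pow_mul]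
      norm_num
    · exact h g hg
  exact key

lemma tvec_tate {χ : Γ →* W.Kˣ} {A : GVar W Γ} {m : ℤ} {t : W.H A.X}
    (h : TVec (glev Γ) (gmul χ) (govar A) m t) : t = 0 ∨ ∃ j : ℕ, m = j ∧ t ∈ tate χ A j := by
  obtain ⟨_, ⟨Δ, hΔ, rfl⟩, h⟩ := h
  have key : ∀ o ∈ insert none (some '' (Δ : Set Γ)), gact A o t = gmul χ o ^ m • t := by
    intro o ho
    have h1 : mapBase W.K (gact A o) ((1 : W.K) ⊗ₜ[W.K] t) =
        gmul χ o ^ m • ((1 : W.K) ⊗ₜ[W.K] t) := h o ho
    rw [Algebra.TensorProduct.map_tmul, map_one, ← TensorProduct.tmul_smul, ← sub_eq_zero,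
      ← TensorProduct.tmul_sub] at h1
    exact sub_eq_zero.1 (tmul_injective _ h1)
  by_cases ht : t = 0
  · exact Or.inl ht
  · right
    have h1 : gradeOp W A.X t = (4 : W.K) ^ m • t := key none (Or.inl rfl)
    obtain ⟨i, hi, hit⟩ := eigen_mem (W.isInternal A.X) (two_pow_injective (K := W.K)) h1 ht
    obtain ⟨j, rfl, rfl⟩ := two_pow_eq_zpow hi
    refine ⟨j, rfl, hit, Δ, hΔ, fun g hg => ?_⟩
    have h2 : A.act g t = (χ g : W.K) ^ (j : ℤ) • t := key (some g) (Or.inr ⟨g, hg, rfl⟩)
    rw [h2, zpow_natCast]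

/-- The product of `A` and `B` with the action `υ`. -/
noncomputable def prodG (A B : GVar W Γ)
    (υ : Γ →* (W.H (A.X.prod B.X) ≃ₐ[W.K] W.H (A.X.prod B.X))) : GVar W Γ := ⟨A.X.prod B.X, υ⟩

lemma exists_prodG {A B C : GVar W Γ} (h : IsProdVar A B C) : ∃ υ, C = prodG A B υ := by
  cases h with
  | mk υ _ _ => exact ⟨υ, rfl⟩

lemma tateSplits_iff {χ : Γ →* W.Kˣ} {A B : GVar W Γ} {υ} :
    TateSplits χ A B (prodG A B υ) ↔ ClassesSplit (W.map (fst A.X B.X)) (W.map (snd A.X B.X))
      (tate χ A) (tate χ B) (tate χ (prodG A B υ)) := by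
  constructor
  · intro h
    cases h with
    | mk _ h => exact h
  · intro h
    exact TateSplits.mk υ h

/-- The operators on products. -/
lemma prodAct_govar {A B : GVar W Γ} {υ : Γ →* (W.H (A.X.prod B.X) ≃ₐ[W.K] W.H (A.X.prod B.X))}
    (h : IsProdVar A B (prodG A B υ)) :
    ProdAct (govar A) (govar B) (fun o => mapBase W.K (gact (prodG A B υ) o)) := by
  have h1 : Equivariant (A := prodG A B υ) (B := A) (fst A.X B.X) ∧
      Equivariant (A := prodG A B υ) (B := B) (snd A.X B.X) := by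
    cases h with
    | mk _ h1 h2 => exact ⟨h1, h2⟩
  have e1 : ∀ o a, gact (prodG A B υ) o (W.map (fst A.X B.X) a) =
      W.map (fst A.X B.X) (gact A o a) := by
    intro o a
    cases o with
    | none => exact gradeOp_map _ a
    | some g => exact h1.1 g a
  have e2 : ∀ o a, gact (prodG A B υ) o (W.map (snd A.X B.X) a) =
      W.map (snd A.X B.X) (gact B o a) := by
    intro o a
    cases o with
    | none => exact gradeOp_map _ a
    | some g => exact h1.2 g a
  exact ⟨fun o x => mapBase_comm (e1 o) x, fun o x => mapBase_comm (e2 o) x⟩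

lemma oclass_galois {χ : Γ →* W.Kˣ} {G : Set (GVar W Γ)} (hG : GaloisClass χ G) :
    OClass (gmul χ) (govar '' G) where
  tr := by
    rintro _ ⟨A, hA, rfl⟩ o y
    change formBase W.K (W.tr A.X) (mapBase W.K (gact A o) y) =
      gmul χ o ^ A.X.dim * formBase W.K (W.tr A.X) y
    have e : ∀ a, W.tr A.X (gact A o a) = gmul χ o ^ A.X.dim * W.tr A.X a := by
      intro a
      cases o with
      | none => exact gradeOp_tr a
      | some g => exact (hG.galois A hA).tr_act g a
    exact formBase_comm e y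
  prod := by
    rintro _ ⟨A, hA, rfl⟩ _ ⟨B, hB, rfl⟩
    obtain ⟨C, hC, hAB⟩ := hG.prod A hA B hB
    cases hAB with
    | mk υ h1 h2 =>
      exact ⟨_, prodAct_govar (IsProdVar.mk υ h1 h2), prodG A B υ, hC, rfl⟩

end Pool.Agent.TH132.E
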