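import Mathlib

/-!
# Operators after extension of the scalars, and the lifting property
-/

set_option autoImplicit false

open TensorProduct

namespace Pool.Agent.TH132.E

section Coord

variable {F K V W : Type*} [Field F] [Field K] [Algebra F K] [AddCommGroup V] [Module F V]
  [AddCommGroup W] [Module F W]

/-- The map `K ⊗ V → V` given by a linear form on `K`. -/
noncomputable def coord (ℓ : K →ₗ[F] F) : K ⊗[F] V →ₗ[F] V :=
  (TensorProduct.lid F V).toLinearMap ∘ₗ LinearMap.rTensor V ℓ

@[simp] lemma coord_tmul (ℓ : K →ₗ[F] F) (c : K) (v : V) : coord ℓ (c ⊗ₜ[F] v) = ℓ c • v := by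
  simp [coord]

lemma coord_baseChange (ℓ : K →ₗ[F] F) (f : V →ₗ[F] W) (x : K ⊗[F] V) :
    coord ℓ (f.baseChange K x) = f (coord ℓ x) := by
  induction x using TensorProduct.induction_on with
  | zero => simp
  | tmul c v => simp
  | add x y hx hy => rw [map_add, map_add, hx, hy, map_add, map_add]

lemma coord_mem {N : Submodule F V} {x : K ⊗[F] V} (hx : x ∈ N.baseChange K) (ℓ : K →ₗ[F] F) :
    coord ℓ x ∈ N := by
  obtain ⟨y, rfl⟩ := hx
  rw [coord_baseChange]
  exact (coord ℓ y).2

lemma mem_baseChange_iff {N : Submodule F V} {x : K ⊗[F] V} :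
    x ∈ N.baseChange K ↔ ∀ ℓ : K →ₗ[F] F, coord ℓ x ∈ N := by
  refine ⟨coord_mem, fun h => ?_⟩
  classical
  let b := Module.Basis.ofVectorSpace F K
  have h1 := TensorProduct.equivFinsuppOfBasisLeft_symm_apply b (N := V)
    (TensorProduct.equivFinsuppOfBasisLeft b x)
  rw [LinearEquiv.symm_apply_apply] at h1
  rw [h1]
  refine Submodule.sum_mem _ fun i _ => ?_
  refine Submodule.tmul_mem_baseChange_of_mem _ ?_
  rw [TensorProduct.equivFinsuppOfBasisLeft_apply]
  exact h (b.coord i)

lemma mem_baseChange_comap {f : V →ₗ[F] W} {N : Submodule F W} {x : K ⊗[F] V} :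
    x ∈ (N.comap f).baseChange K ↔ f.baseChange K x ∈ N.baseChange K := by
  rw [mem_baseChange_iff, mem_baseChange_iff]
  refine forall_congr' fun ℓ => ?_
  rw [coord_baseChange, Submodule.mem_comap]

lemma mem_baseChange_inf {N N' : Submodule F V} {x : K ⊗[F] V} (h : x ∈ N.baseChange K)
    (h' : x ∈ N'.baseChange K) : x ∈ (N ⊓ N').baseChange K :=
  mem_baseChange_iff.2 fun ℓ => ⟨coord_mem h ℓ, coord_mem h' ℓ⟩

lemma baseChange_mem_range (f : V →ₗ[F] W) {N : Submodule F W} (h : LinearMap.range f ≤ N)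
    (x : K ⊗[F] V) : f.baseChange K x ∈ N.baseChange K :=
  mem_baseChange_iff.2 fun ℓ => by
    rw [coord_baseChange]
    exact h ⟨_, rfl⟩

lemma baseChange_sup_le {N N' : Submodule F V} {P : Submodule K (K ⊗[F] V)}
    (h : N.baseChange K ≤ P) (h' : N'.baseChange K ≤ P) : (N ⊔ N').baseChange K ≤ P := by
  rw [Submodule.baseChange_eq_span, Submodule.span_le]
  rintro _ ⟨v, hv, rfl⟩
  obtain ⟨a, ha, b, hb, rfl⟩ := Submodule.mem_sup.1 hv
  rw [SetLike.mem_coe, map_add]
  exact P.add_mem (h (Submodule.tmul_mem_baseChange_of_mem 1 ha))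
    (h' (Submodule.tmul_mem_baseChange_of_mem 1 hb))

lemma range_baseChange (f : V →ₗ[F] W) {x : K ⊗[F] W}
    (hx : x ∈ (LinearMap.range f).baseChange K) : ∃ y, f.baseChange K y = x := by
  rw [Submodule.baseChange_eq_span] at hx
  change x ∈ LinearMap.range (f.baseChange K)
  refine Submodule.span_le.2 ?_ hx
  rintro _ ⟨_, ⟨v, rfl⟩, rfl⟩
  exact ⟨1 ⊗ₜ v, by simp⟩

end Coord

section Ops

variable {F K : Type*} [Field F] [Field K] [Algebra F K] {O : Type*}

section Defs

variable {V W : Type*} [AddCommGroup V] [Module F V] [AddCommGroup W] [Module F W]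

/-- The subspace `N` is stable under the operators `τ` (on the extension of the scalars). -/
def Stable (τ : O → Module.End K (K ⊗[F] V)) (N : Submodule F V) : Prop :=
  ∀ o, ∀ x ∈ N.baseChange K, τ o x ∈ N.baseChange K

/-- Every stable subspace has a stable complement. -/
def Reducible (τ : O → Module.End K (K ⊗[F] V)) : Prop :=
  ∀ N, Stable τ N → ∃ N', Stable τ N' ∧ IsCompl N N'

/-- The map `f` is compatible with the operators up to the scalars `a`. -/
def Compat (τ : O → Module.End K (K ⊗[F] V)) (υ : O → Module.End K (K ⊗[F] W)) (a : O → K)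
    (f : V →ₗ[F] W) : Prop :=
  ∀ o x, f.baseChange K (τ o x) = a o • υ o (f.baseChange K x)

end Defs

variable {V W U : Type*} [AddCommGroup V] [Module F V] [AddCommGroup W] [Module F W]
  [AddCommGroup U] [Module F U] {τ : O → Module.End K (K ⊗[F] V)}
  {υ : O → Module.End K (K ⊗[F] W)} {ω : O → Module.End K (K ⊗[F] U)}

lemma Compat.comp {a b : O → K} {f : V →ₗ[F] W} {g : W →ₗ[F] U} (hg : Compat υ ω b g)
    (hf : Compat τ υ a f) : Compat τ ω (a * b) (g ∘ₗ f) := by
  intro o x
  rw [LinearMap.baseChange_comp, LinearMap.comp_apply, LinearMap.comp_apply, hf o x, map_smul,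
    hg o, smul_smul, Pi.mul_apply]

lemma Compat.sub {a : O → K} {f g : V →ₗ[F] W} (hf : Compat τ υ a f) (hg : Compat τ υ a g) :
    Compat τ υ a (f - g) := by
  intro o x
  rw [LinearMap.baseChange_sub, LinearMap.sub_apply, LinearMap.sub_apply, hf o x, hg o x,
    map_sub, smul_sub]

lemma Compat.add {a : O → K} {f g : V →ₗ[F] W} (hf : Compat τ υ a f) (hg : Compat τ υ a g) :
    Compat τ υ a (f + g) := by
  intro o x
  rw [LinearMap.baseChange_add, LinearMap.add_apply, LinearMap.add_apply, hf o x, hg o x,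
    map_add, smul_add]

lemma Stable.sup {N N' : Submodule F V} (h : Stable τ N) (h' : Stable τ N') :
    Stable τ (N ⊔ N') := by
  intro o
  change (N ⊔ N').baseChange K ≤ ((N ⊔ N').baseChange K).comap (τ o)
  exact baseChange_sup_le (fun x hx => Submodule.baseChange_mono K le_sup_left (h o x hx))
    (fun x hx => Submodule.baseChange_mono K le_sup_right (h' o x hx))

lemma Stable.bot : Stable τ (⊥ : Submodule F V) := by
  intro o x hx
  rw [Submodule.baseChange_bot, Submodule.mem_bot] at hx ⊢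
  rw [hx, map_zero]

lemma Compat.range {b : O → K} (hb : ∀ o, b o ≠ 0) {f : V →ₗ[F] W} (hf : Compat τ υ b f) :
    Stable υ (LinearMap.range f) := by
  intro o x hx
  obtain ⟨y, rfl⟩ := range_baseChange f hx
  have h1 := hf o y
  have h2 : υ o (f.baseChange K y) = (b o)⁻¹ • f.baseChange K (τ o y) := by
    rw [h1, smul_smul, inv_mul_cancel₀ (hb o), one_smul]
  rw [h2]
  exact Submodule.smul_mem _ _ (baseChange_mem_range f le_rfl _)

lemma Stable.comap {b : O → K} {f : V →ₗ[F] W} (hf : Compat τ υ b f)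
    {N : Submodule F W} (hN : Stable υ N) : Stable τ (N.comap f) := by
  intro o x hx
  rw [mem_baseChange_comap] at hx ⊢
  rw [hf o x]
  exact Submodule.smul_mem _ _ (hN o _ hx)

variable {κ : Type*} {B : κ → Type*} [∀ k, AddCommGroup (B k)] [∀ k, Module F (B k)]
  {σ : ∀ k, O → Module.End K (K ⊗[F] B k)}

lemma stable_sup_range {b : κ → O → K} (hb : ∀ k o, b k o ≠ 0) {ψ : ∀ k, B k →ₗ[F] W}
    (hψ : ∀ k, Compat (σ k) υ (b k) (ψ k)) (s : Finset κ) :
    Stable υ (s.sup fun k => LinearMap.range (ψ k)) := by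
  classical
  induction s using Finset.induction_on with
  | empty => exact Stable.bot
  | insert k s _ ih =>
    rw [Finset.sup_insert]
    exact ((hψ k).range (hb k)).sup ih

/-- **Lifting.** A map whose image is in the sum of the images of the maps `ψ k` is a sum of
compositions with the `ψ k`. -/
theorem exists_lift {b : κ → O → K} (hb : ∀ k o, b k o ≠ 0)
    (hσ : ∀ k, Reducible (σ k)) {ψ : ∀ k, B k →ₗ[F] W}
    (hψ : ∀ k, Compat (σ k) υ (b k) (ψ k)) (s : Finset κ) {a : O → K}
    {φ : V →ₗ[F] W} (hφ : Compat τ υ a φ)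
    (hr : LinearMap.range φ ≤ s.sup fun k => LinearMap.range (ψ k)) :
    ∃ t : ∀ k, V →ₗ[F] B k, (∀ k, Compat τ (σ k) (a / b k) (t k)) ∧
      φ = ∑ k ∈ s, ψ k ∘ₗ t k := by
  classical
  induction s using Finset.induction_on generalizing φ with
  | empty =>
    refine ⟨fun _ => 0, fun k o x => by simp, ?_⟩
    rw [Finset.sup_empty, le_bot_iff, LinearMap.range_eq_bot] at hr
    rw [hr, Finset.sum_empty]
  | insert k₀ s hk ih =>
    rw [Finset.sup_insert] at hr
    set N := s.sup fun k => LinearMap.range (ψ k) with hN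
    have hNst : Stable υ N := stable_sup_range hb hψ s
    have hP : Stable (σ k₀) (N.comap (ψ k₀)) := Stable.comap (hψ k₀) hNst
    obtain ⟨C, hC, hPC⟩ := hσ k₀ _ hP
    -- the linear section
    let g : C →ₗ[F] W ⧸ N := N.mkQ ∘ₗ ψ k₀ ∘ₗ C.subtype
    have hg : LinearMap.ker g = ⊥ := by
      rw [LinearMap.ker_eq_bot']
      intro c hc
      have h1 : ψ k₀ c ∈ N := by
        rw [← Submodule.Quotient.mk_eq_zero]
        exact hc
      have h2 : (c : B k₀) ∈ N.comap (ψ k₀) ⊓ C := ⟨h1, c.2⟩
      rw [hPC.inf_eq_bot, Submodule.mem_bot] at h2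
      exact Subtype.ext h2
    obtain ⟨l, hl⟩ := g.exists_leftInverse_of_injective hg
    have hl' : ∀ c, l (g c) = c := fun c => LinearMap.congr_fun hl c
    let t₀ : V →ₗ[F] B k₀ := C.subtype ∘ₗ l ∘ₗ N.mkQ ∘ₗ φ
    have ht₀C : ∀ v, t₀ v ∈ C := fun v => (l (N.mkQ (φ v))).2
    have hdiff : ∀ v, φ v - ψ k₀ (t₀ v) ∈ N := by
      intro v
      obtain ⟨y, ⟨w, rfl⟩, n, hn, hyn⟩ := Submodule.mem_sup.1 (hr ⟨v, rfl⟩)
      have hw : w ∈ N.comap (ψ k₀) ⊔ C := by rw [hPC.sup_eq_top]; trivial
      obtain ⟨p, hp, c, hc, rfl⟩ := Submodule.mem_sup.1 hw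
      have h1 : N.mkQ (φ v) = g ⟨c, hc⟩ := by
        change N.mkQ (φ v) = N.mkQ (ψ k₀ c)
        rw [← sub_eq_zero, ← map_sub, Submodule.mkQ_apply, Submodule.Quotient.mk_eq_zero, ← hyn,
          map_add]
        have : ψ k₀ p + ψ k₀ c + n - ψ k₀ c = ψ k₀ p + n := by abel
        rw [this]
        exact N.add_mem hp hn
      have h2 : t₀ v = c := by
        change ((l (N.mkQ (φ v)) : C) : B k₀) = c
        rw [h1, hl']
      rw [h2, ← Submodule.Quotient.mk_eq_zero, ← Submodule.mkQ_apply, map_sub, h1, sub_eq_zero]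
      rfl
    have ht₀ : Compat τ (σ k₀) (a / b k₀) t₀ := by
      intro o x
      rw [← sub_eq_zero]
      set y := t₀.baseChange K (τ o x) - (a / b k₀) o • σ k₀ o (t₀.baseChange K x) with hy
      have hyC : y ∈ C.baseChange K := by
        have hr0 : LinearMap.range t₀ ≤ C := by
          rintro _ ⟨v, rfl⟩
          exact ht₀C v
        exact Submodule.sub_mem _ (baseChange_mem_range t₀ hr0 _)
          (Submodule.smul_mem _ _ (hC o _ (baseChange_mem_range t₀ hr0 _)))
      have hd : ∀ z : K ⊗[F] V, φ.baseChange K z - (ψ k₀).baseChange K (t₀.baseChange K z) ∈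
          N.baseChange K := by
        intro z
        have h3 := baseChange_mem_range (K := K) (φ - ψ k₀ ∘ₗ t₀) (N := N)
          (by rintro _ ⟨v, rfl⟩; exact hdiff v) z
        rwa [LinearMap.baseChange_sub, LinearMap.sub_apply, LinearMap.baseChange_comp,
          LinearMap.comp_apply] at h3
      have hyP : y ∈ (N.comap (ψ k₀)).baseChange K := by
        rw [mem_baseChange_comap]
        have h4 : (ψ k₀).baseChange K y =
            a o • υ o (φ.baseChange K x - (ψ k₀).baseChange K (t₀.baseChange K x)) -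
              (φ.baseChange K (τ o x) - (ψ k₀).baseChange K (t₀.baseChange K (τ o x))) := by
          rw [hy, map_sub, map_smul, hψ k₀ o, hφ o x, map_sub, smul_sub, smul_smul,
            Pi.div_apply, div_mul_cancel₀ _ (hb k₀ o)]
          abel
        rw [h4]
        exact Submodule.sub_mem _ (Submodule.smul_mem _ _ (hNst o _ (hd x))) (hd _)
      have h5 := mem_baseChange_inf hyP hyC
      rw [hPC.inf_eq_bot, Submodule.baseChange_bot, Submodule.mem_bot] at h5
      exact h5
    have hcomp : Compat τ υ a (ψ k₀ ∘ₗ t₀) := by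
      have h6 := (hψ k₀).comp ht₀
      rwa [show a / b k₀ * b k₀ = a from funext fun o => div_mul_cancel₀ _ (hb k₀ o)] at h6
    obtain ⟨t, ht, hsum⟩ := ih (φ := φ - ψ k₀ ∘ₗ t₀) (hφ.sub hcomp)
      (by rintro _ ⟨v, rfl⟩; exact hdiff v)
    refine ⟨fun k => if h : k = k₀ then h ▸ t₀ else t k, ?_, ?_⟩
    · intro k
      by_cases h : k = k₀
      · subst h
        simpa using ht₀
      · simpa [h] using ht k
    · rw [Finset.sum_insert hk]
      simp only [dite_true]
      have h7 : ∑ k ∈ s, ψ k ∘ₗ (if h : k = k₀ then h ▸ t₀ else t k) = ∑ k ∈ s, ψ k ∘ₗ t k := by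
        refine Finset.sum_congr rfl fun k hks => ?_
        have h8 : k ≠ k₀ := fun h => hk (h ▸ hks)
        rw [dif_neg h8]
      rw [h7, ← hsum]
      abel

end Ops

end Pool.Agent.TH132.E
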