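import Pool.Agent.TH132.E.Abs
import Pool.Agent.TH132.E.Lin

/-!
# Exceptional sets for vector spaces with operators
-/

set_option autoImplicit false

open TensorProduct

universe v

namespace Pool.Agent.TH132.E

section Gen

variable {F K : Type v} [Field F] [Field K] [Algebra F K] {O : Type*}

/-- A vector space over `F` with operators on the extension of the scalars to `K`. -/
structure OpSp (F K : Type v) [Field F] [Field K] [Algebra F K] (O : Type*) where
  /-- the space -/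
  V : Type v
  [grp : AddCommGroup V]
  [mod : Module F V]
  /-- the operators -/
  τ : O → Module.End K (K ⊗[F] V)

attribute [instance] OpSp.grp OpSp.mod

/-- The map `f` is compatible with the operators in a level of the system `L`, up to the powers
`c o ^ m`. -/
def TMap (L : Set (Set O)) (c : O → K) (m : ℤ) (A B : OpSp F K O) (f : A.V →ₗ[F] B.V) : Prop :=
  ∃ D ∈ L, Compat (fun o : D => A.τ o) (fun o : D => B.τ o) (fun o : D => c o ^ m) f

/-- The system `L` is not empty and directed. -/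
structure Directed' (L : Set (Set O)) : Prop where
  nonempty : L.Nonempty
  inter : ∀ D ∈ L, ∀ D' ∈ L, ∃ D'' ∈ L, D'' ⊆ D ∩ D'

lemma Directed'.finite {L : Set (Set O)} (hL : Directed' L) {κ : Type*} (s : Finset κ)
    (D : κ → Set O) (hD : ∀ k ∈ s, D k ∈ L) : ∃ D' ∈ L, ∀ k ∈ s, D' ⊆ D k := by
  classical
  induction s using Finset.induction_on with
  | empty =>
    obtain ⟨D, hD⟩ := hL.nonempty
    exact ⟨D, hD, by simp⟩
  | insert k s hk ih =>
    obtain ⟨D', hD', h1⟩ := ih fun k' hk' => hD k' (Finset.mem_insert_of_mem hk')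
    obtain ⟨D'', hD'', h2⟩ := hL.inter _ hD' _ (hD k (Finset.mem_insert_self k s))
    refine ⟨D'', hD'', fun k' hk' => ?_⟩
    rcases Finset.mem_insert.1 hk' with rfl | h
    · exact h2.trans Set.inter_subset_right
    · exact (h2.trans Set.inter_subset_left).trans (h1 k' h)

lemma compat_mono {D D' : Set O} (h : D' ⊆ D) {V W : Type*} [AddCommGroup V] [Module F V]
    [AddCommGroup W] [Module F W] {τ : O → Module.End K (K ⊗[F] V)}
    {υ : O → Module.End K (K ⊗[F] W)} {a : O → K} {f : V →ₗ[F] W}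
    (hf : Compat (fun o : D => τ o) (fun o : D => υ o) (fun o : D => a o) f) :
    Compat (fun o : D' => τ o) (fun o : D' => υ o) (fun o : D' => a o) f :=
  fun o x => hf ⟨o, h o.2⟩ x

/-- All stable subspaces for all levels have stable complements. -/
def AllReducible (L : Set (Set O)) (A : OpSp F K O) : Prop :=
  ∀ D ∈ L, Reducible (fun o : D => A.τ o)

variable {L : Set (Set O)} {c : O → K}

lemma TMap.comp (hL : Directed' L) (hc : ∀ o, c o ≠ 0) {m n : ℤ} {A B C : OpSp F K O}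
    {f : A.V →ₗ[F] B.V} {g : B.V →ₗ[F] C.V} (hg : TMap L c n B C g) (hf : TMap L c m A B f) :
    TMap L c (m + n) A C (g ∘ₗ f) := by
  obtain ⟨D, hD, h1⟩ := hg
  obtain ⟨D', hD', h2⟩ := hf
  obtain ⟨D'', hD'', h3⟩ := hL.inter D hD D' hD'
  refine ⟨D'', hD'', ?_⟩
  have h4 := (compat_mono (a := fun o => c o ^ n) (h3.trans Set.inter_subset_left) h1).comp
    (compat_mono (a := fun o => c o ^ m) (h3.trans Set.inter_subset_right) h2)
  intro o x
  rw [h4 o x, Pi.mul_apply, ← zpow_add₀ (hc _)]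

variable {ι : Type*} [DecidableEq ι]

/-- The maps to `M` of all weights. -/
def allMaps (L : Set (Set O)) (c : O → K) (M : OpSp F K O) (A : OpSp F K O) :
    Set (A.V →ₗ[F] M.V) := {φ | ∃ m, TMap L c m A M φ}

/-- **The exceptional set.** -/
theorem gen_exceptional (hL : Directed' L) (hc : ∀ o, c o ≠ 0) (M : OpSp F K O)
    [Module.Finite F M.V] (Q : Finset ι → Set (OpSp F K O))
    (hred : ∀ J, ∀ A ∈ Q J, AllReducible L A)
    (hind : ∀ J : Finset ι, J.Nonempty → ∀ A ∈ Q J, ∃ i ∈ J, ∀ J' : Finset ι, i ∉ J' →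
      ∀ B ∈ Q J', ∀ (m : ℤ) (t : A.V →ₗ[F] B.V), TMap L c m A B t → ∀ N : Submodule F B.V,
        (∀ A' ∈ Q (J.erase i), ∀ (n : ℤ) (θ : A'.V →ₗ[F] B.V), TMap L c n A' B θ →
          LinearMap.range θ ≤ N) → LinearMap.range t ≤ N) :
    ∃ E : Finset ι, E.card + Module.finrank F (reach (V := OpSp.V) (allMaps L c M) Q ∅) ≤
        Module.finrank F M.V ∧
      ∀ J : Finset ι, Disjoint J E → ∀ A ∈ Q J, ∀ m, ∀ φ : A.V →ₗ[F] M.V, TMap L c m A M φ →
        LinearMap.range φ ≤ reach (V := OpSp.V) (allMaps L c M) Q ∅ := by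
  classical
  have main := exists_exceptional (F := F) (M := M.V) (V := OpSp.V) (T := allMaps L c M) (Q := Q)
    ?_
  · obtain ⟨E, hE, h⟩ := main
    exact ⟨E, hE, fun J hJ A hA m φ hφ => h J hJ A hA φ ⟨m, hφ⟩⟩
  intro J hJ A hA
  obtain ⟨i, hi, hind'⟩ := hind J hJ A hA
  refine ⟨i, hi, ?_⟩
  rintro φ ⟨m, Dφ, hDφ, hφ⟩ S hiS hle
  -- finitely many maps
  set X := {x : Σ (_ : Finset ι) (A : OpSp F K O), (A.V →ₗ[F] M.V) //
    (x.1 : Set ι) ⊆ S ∧ x.2.1 ∈ Q x.1 ∧ x.2.2 ∈ allMaps L c M x.2.1} with hX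
  have hcomp : IsCompactElement (LinearMap.range φ) := by
    rw [← Submodule.fg_iff_compact]
    exact IsNoetherian.noetherian _
  obtain ⟨s, hs⟩ := CompleteLattice.IsCompactElement.exists_finset_of_le_iSup (Submodule F M.V) hcomp
    (fun x : X => LinearMap.range x.1.2.2) hle
  have hx : ∀ x : X, ∃ m, TMap L c m x.1.2.1 M x.1.2.2 := fun x => x.2.2.2
  choose w hw using hx
  choose Dx hDx hcx using hw
  obtain ⟨D, hD, hDs⟩ := hL.finite s Dx fun x _ => hDx x
  obtain ⟨D', hD', hDD⟩ := hL.inter D hD Dφ hDφ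
  obtain ⟨t, ht, hsum⟩ := exists_lift (F := F) (K := K) (O := D') (κ := s)
    (B := fun x => x.1.1.2.1.V) (τ := fun o : D' => A.τ o) (υ := fun o : D' => M.τ o)
    (σ := fun x o => x.1.1.2.1.τ o) (b := fun x (o : D') => c o ^ w x.1)
    (fun x o => zpow_ne_zero _ (hc _))
    (fun x => hred _ _ x.1.2.2.1 D' hD')
    (ψ := fun x => x.1.1.2.2)
    (fun x => compat_mono (a := fun o => c o ^ w x.1) ((hDD.trans Set.inter_subset_left).trans
      (hDs x.1 x.2)) (hcx x.1))
    Finset.univ (a := fun o : D' => c o ^ m) (φ := φ)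
    (compat_mono (a := fun o => c o ^ m) (hDD.trans Set.inter_subset_right) hφ)
    (by
      refine hs.trans ?_
      refine iSup₂_le fun x hx => ?_
      exact Finset.le_sup (f := fun x : s => LinearMap.range x.1.1.2.2)
        (Finset.mem_univ (⟨x, hx⟩ : s)))
  rw [hsum]
  have hr : ∀ x : s, LinearMap.range (x.1.1.2.2 ∘ₗ t x) ≤
      reach (V := OpSp.V) (allMaps L c M) Q (J.erase i : Set ι) := by
    intro x
    have hiJ' : i ∉ x.1.1.1 := fun h => hiS (x.1.2.1 (by exact_mod_cast h))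
    have h1 := hind' x.1.1.1 hiJ' x.1.1.2.1 x.1.2.2.1 (m - w x.1) (t x)
      ⟨D', hD', fun o y => by
        rw [ht x o y, Pi.div_apply, ← zpow_sub₀ (hc _)]⟩
      ((reach (V := OpSp.V) (allMaps L c M) Q (J.erase i : Set ι)).comap x.1.1.2.2)
      (by
        intro A' hA' n θ hθ
        rintro _ ⟨y, rfl⟩
        refine range_le_reach (V := OpSp.V) (J := J.erase i) le_rfl hA'
          (φ := x.1.1.2.2 ∘ₗ θ) ?_ ⟨y, rfl⟩
        exact ⟨n + w x.1, TMap.comp hL hc ⟨Dx x.1, hDx x.1, hcx x.1⟩ hθ⟩)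
    rintro _ ⟨y, rfl⟩
    exact h1 ⟨y, rfl⟩
  rintro _ ⟨y, rfl⟩
  rw [LinearMap.sum_apply]
  exact Submodule.sum_mem _ fun x _ => hr x ⟨y, rfl⟩

end Gen

end Pool.Agent.TH132.E
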