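import Pool.Agent.TH132.E.Var

/-!
# Exceptional sets for varieties: independence of towers
-/

set_option autoImplicit false

open CategoryTheory AlgebraicGeometry TensorProduct

universe u v w

namespace Pool.Agent.TH132.E

open Pool.Agent.H914 Pool.Agent.H914.VarClass Pool.Agent.H914.VarClass.Obj
  Pool.Agent.H914.WeilCohomology

variable {k : Type u} [Field k] {𝒱 : VarClass k} {ops : CycleOps 𝒱}
  {W : WeilCohomology.{u, v} ops} {L : Type v} [Field L] [Algebra W.K L] {O : Type w}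
  {𝓛 : Set (Set O)} {c : O → L} {G : Set (OVar W L O)}

lemma fm_mem_of_split {A B : OVar W L O} {z : W.H (A.X.prod B.X)}
    (hz : z ∈ Submodule.span W.K (tProducts 𝓛 c A B)) {P : Submodule W.K (W.H B.X)}
    (hP : ∀ n b, TVec 𝓛 c B n b → b ∈ P) (x : W.H A.X) : fm W A.X B.X z x ∈ P := by
  induction hz using Submodule.span_induction with
  | mem y hy =>
    obtain ⟨n, n', a, b, ha, hb, rfl⟩ := hy
    rw [fm_mul]
    exact P.smul_mem _ (hP n' b hb)
  | zero => rw [map_zero]; exact P.zero_mem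
  | add y z _ _ hy hz => rw [map_add]; exact P.add_mem hy hz
  | smul r y _ hy => rw [map_smul]; exact P.smul_mem _ hy

lemma tvec_tmap {B : OVar W L O} {n : ℤ} {b : W.H B.X} (hc : ∀ o, c o ≠ 0)
    (hb : TVec 𝓛 c B n b) :
    TMap 𝓛 c (-n) (unitSp W L O) (opSp B) (LinearMap.toSpanSingleton W.K (W.H B.X) b) := by
  obtain ⟨D, hD, h⟩ := hb
  refine ⟨D, hD, fun o x => ?_⟩
  have key : ∀ x : L ⊗[W.K] W.K, c o ^ n •
      (LinearMap.toSpanSingleton W.K (W.H B.X) b).baseChange L x =
      B.act o ((LinearMap.toSpanSingleton W.K (W.H B.X) b).baseChange L x) := by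
    intro x
    induction x using TensorProduct.induction_on with
    | zero => simp
    | add x y hx hy => rw [map_add, smul_add, hx, hy, map_add]
    | tmul l a =>
      rw [LinearMap.baseChange_tmul]
      have h1 : (l ⊗ₜ[W.K] (LinearMap.toSpanSingleton W.K (W.H B.X) b a) : L ⊗[W.K] W.H B.X) =
          (l * algebraMap W.K L a) • ((1 : L) ⊗ₜ[W.K] b) := by
        rw [LinearMap.toSpanSingleton_apply, TensorProduct.tmul_smul, TensorProduct.smul_tmul',
          TensorProduct.smul_tmul', smul_eq_mul, mul_one, Algebra.smul_def, mul_comm]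
      rw [h1, map_smul, h o o.2, smul_comm]
  have key' : ∀ x : L ⊗[W.K] W.K, (LinearMap.toSpanSingleton W.K (W.H B.X) b).baseChange L x =
      c o ^ (-n) • B.act o ((LinearMap.toSpanSingleton W.K (W.H B.X) b).baseChange L x) := by
    intro x
    rw [← key, smul_smul, ← zpow_add₀ (hc _), neg_add_cancel, zpow_zero, one_smul]
  exact key' x

lemma tr_tmap {B : OVar W L O} (h𝓛 : Directed' 𝓛)
    (hB : ∀ o y, formBase L (W.tr B.X) (B.act o y) = c o ^ B.X.dim * formBase L (W.tr B.X) y) :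
    TMap 𝓛 c B.X.dim (opSp B) (unitSp W L O) (W.tr B.X) := by
  obtain ⟨D, hD⟩ := h𝓛.nonempty
  refine ⟨D, hD, fun o x => ?_⟩
  change (W.tr B.X).baseChange L (B.act o x) = c o ^ (B.X.dim : ℤ) • (W.tr B.X).baseChange L x
  apply (TensorProduct.AlgebraTensorModule.rid W.K L L).injective
  rw [map_smul, zpow_natCast]
  exact hB o x

/-- The map `H(A) → H(B × C)` given by a map `H(A × B) → H(C)`. -/
noncomputable def adj {A B C : 𝒱.Obj} (t : W.H (A.prod B) →ₗ[W.K] W.H C) :
    W.H A →ₗ[W.K] W.H (B.prod C) :=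
  (LinearEquiv.ofBijective _ (fm_bijective W (A := B) (B := C))).symm.toLinearMap ∘ₗ
    ((LinearMap.mul W.K (W.H (A.prod B))).compl₁₂ (W.map (fst A B)).toLinearMap
      (W.map (snd A B)).toLinearMap).compr₂ t

lemma fm_adj {A B C : 𝒱.Obj} (t : W.H (A.prod B) →ₗ[W.K] W.H C) (x : W.H A) (x' : W.H B) :
    fm W B C (adj t x) x' = t (W.map (fst A B) x * W.map (snd A B) x') := by
  have h1 := LinearEquiv.apply_symm_apply
    (LinearEquiv.ofBijective _ (fm_bijective W (A := B) (B := C)))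
    (((LinearMap.mul W.K (W.H (A.prod B))).compl₁₂ (W.map (fst A B)).toLinearMap
      (W.map (snd A B)).toLinearMap).compr₂ t x)
  exact LinearMap.congr_fun h1 x'

variable (W L) in
/-- The linear map given by a class on the product, after extension of the coefficients. -/
noncomputable def fmL (B C : 𝒱.Obj) :
    L ⊗[W.K] W.H (B.prod C) →ₗ[L] (L ⊗[W.K] W.H B →ₗ[L] L ⊗[W.K] W.H C) :=
  fm (baseW W L) B C

lemma fmL_injective {B C : 𝒱.Obj} : Function.Injective (fmL W L B C) :=
  fm_injective (baseW W L)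

lemma fmL_base {B C : 𝒱.Obj} (t : W.H (B.prod C)) (x : L ⊗[W.K] W.H B) :
    fmL W L B C ((1 : L) ⊗ₜ[W.K] t) x = (fm W B C t).baseChange L x := fm_base W L t x

lemma fmL_act {A B : 𝒱.Obj} {α : L ⊗[W.K] W.H A →ₐ[L] L ⊗[W.K] W.H A}
    {β : L ⊗[W.K] W.H B →ₐ[L] L ⊗[W.K] W.H B}
    {γ : L ⊗[W.K] W.H (A.prod B) →ₐ[L] L ⊗[W.K] W.H (A.prod B)} {s : L}
    (h1 : ∀ a, γ (mapBase L (W.map (fst A B)) a) = mapBase L (W.map (fst A B)) (α a))
    (h2 : ∀ b, γ (mapBase L (W.map (snd A B)) b) = mapBase L (W.map (snd A B)) (β b))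
    (hs : ∀ a, formBase L (W.tr A) (α a) = s * formBase L (W.tr A) a)
    (t : L ⊗[W.K] W.H (A.prod B)) (a : L ⊗[W.K] W.H A) :
    fmL W L A B (γ t) (α a) = s • β (fmL W L A B t a) :=
  fm_act (W := baseW W L) (A := A) (B := B) (α := α) (β := β) (γ := γ) (s := s) h1 h2 hs t a

/-- The extended maps. -/
lemma fm_adj_base {A B C : 𝒱.Obj} (t : W.H (A.prod B) →ₗ[W.K] W.H C) (x : L ⊗[W.K] W.H A)
    (x' : L ⊗[W.K] W.H B) :
    fmL W L B C ((adj t).baseChange L x) x' =
      t.baseChange L (mapBase L (W.map (fst A B)) x * mapBase L (W.map (snd A B)) x') := by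
  refine tmul_induction (P := fun x => fmL W L B C ((adj t).baseChange L x) x' =
      t.baseChange L (mapBase L (W.map (fst A B)) x * mapBase L (W.map (snd A B)) x')) ?_ ?_ ?_ x
  · rw [map_zero, map_zero, LinearMap.zero_apply, map_zero, zero_mul, map_zero]
  · intro x y hx hy
    rw [map_add, map_add, LinearMap.add_apply, hx, hy, map_add, add_mul, map_add]
  · intro l a
    refine tmul_induction (P := fun x' => fmL W L B C
      ((adj t).baseChange L (l ⊗ₜ[W.K] a)) x' = t.baseChange L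
        (mapBase L (W.map (fst A B)) (l ⊗ₜ[W.K] a) * mapBase L (W.map (snd A B)) x')) ?_ ?_ ?_ x'
    · rw [map_zero, map_zero, mul_zero, map_zero]
    · intro x y hx hy
      rw [map_add, map_add, mul_add, map_add, ← hx, ← hy]
    · intro l' b
      rw [LinearMap.baseChange_tmul, Algebra.TensorProduct.map_tmul,
        Algebra.TensorProduct.map_tmul, Algebra.TensorProduct.tmul_mul_tmul,
        LinearMap.baseChange_tmul]
      have h1 : (l ⊗ₜ[W.K] (adj t a) : L ⊗[W.K] W.H (B.prod C)) =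
          l • ((1 : L) ⊗ₜ[W.K] (adj t a)) := by
        rw [TensorProduct.smul_tmul', smul_eq_mul, mul_one]
      rw [h1, map_smul, LinearMap.smul_apply, fmL_base, LinearMap.baseChange_tmul,
        TensorProduct.smul_tmul', smul_eq_mul, fm_adj]
      rfl

/-- The map `H(A) → H(B × C)` is compatible with the operators. -/
lemma adj_tmap (hc : ∀ o, c o ≠ 0) {A B C : OVar W L O}
    (hB : ∀ o y, formBase L (W.tr B.X) (B.act o y) = c o ^ B.X.dim * formBase L (W.tr B.X) y)
    {υ} (hυ : ProdAct A B υ) {ω} (hω : ProdAct B C ω) {m : ℤ}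
    {t : W.H (A.X.prod B.X) →ₗ[W.K] W.H C.X} (ht : TMap 𝓛 c m (opSp (prodO A B υ)) (opSp C) t) :
    TMap 𝓛 c (m - B.X.dim) (opSp A) (opSp (prodO B C ω)) (adj t) := by
  obtain ⟨D, hD, h⟩ := ht
  refine ⟨D, hD, fun o x => ?_⟩
  have h' : ∀ y : L ⊗[W.K] W.H (A.X.prod B.X), t.baseChange L (υ o y) =
    c o ^ m • C.act o (t.baseChange L y) := fun y => h o y
  have main : ∀ x : L ⊗[W.K] W.H A.X, (adj t).baseChange L (A.act o x) =
      c o ^ (m - B.X.dim : ℤ) • ω o ((adj t).baseChange L x) := by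
    intro x
    apply fmL_injective (B := B.X) (C := C.X)
    apply LinearMap.ext
    intro y
    obtain ⟨x', hx'⟩ : ∃ x', B.act o x' = y := (act_bijective (W := baseW W L) (A := B.X)
      (α := B.act o) (s := c o ^ B.X.dim) (hB o) (pow_ne_zero _ (hc o))).2 y
    rw [← hx', fm_adj_base, ← hυ.fst, ← hυ.snd, ← map_mul, h', map_smul, LinearMap.smul_apply,
      fmL_act (hω.fst o) (hω.snd o) (hB o), fm_adj_base, smul_smul, ← zpow_natCast,
      ← zpow_add₀ (hc _), sub_add_cancel]
  exact main x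

end Pool.Agent.TH132.E
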