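import Pool.Agent.TH132.E.Hind

/-!
# Exceptional sets for varieties: the theorem
-/

set_option autoImplicit false

open CategoryTheory AlgebraicGeometry TensorProduct

universe u v w

namespace Pool.Agent.TH132.E

open Pool.Agent.H914 Pool.Agent.H914.VarClass Pool.Agent.H914.VarClass.Obj
  Pool.Agent.H914.WeilCohomology

variable {k : Type u} [Field k] {𝒱 : VarClass k} {ops : CycleOps 𝒱}
  {W : WeilCohomology.{u, v} ops} {L : Type v} [Field L] [Algebra W.K L] {O : Type w}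
  {𝓛 : Set (Set O)} {c : O → L} {G : Set (OVar W L O)}

lemma eq_zero_of_tr_eq_zero {A B : 𝒱.Obj} (h : W.tr B = 0) (y : W.H (A.prod B)) : y = 0 := by
  refine W.kunneth_induction (p := fun y => y = 0) ?_ ?_ y
  · intro a b ha hb
    rw [ha, hb, add_zero]
  · intro i j a _ b _
    have hb : b = 0 := W.nondeg b fun b' => by rw [h, LinearMap.zero_apply]
    rw [hb, map_zero, mul_zero]

variable {ι : Type*} [DecidableEq ι] {X : ι → OVar W L O}

omit [DecidableEq ι] in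
lemma hind_unit (h𝓛 : Directed' 𝓛) {V : Type v} [AddCommGroup V] [Module W.K V]
    (t : V →ₗ[W.K] W.K) (N : Submodule W.K W.K)
    (hN : ∀ (n : ℤ) (θ : W.K →ₗ[W.K] W.K), TMap 𝓛 c n (unitSp W L O) (unitSp W L O) θ →
      LinearMap.range θ ≤ N) : LinearMap.range t ≤ N := by
  have h1 := hN 0 LinearMap.id (by
    obtain ⟨D, hD⟩ := h𝓛.nonempty
    refine ⟨D, hD, fun o x => ?_⟩
    change LinearMap.id.baseChange L x = c o ^ (0 : ℤ) • LinearMap.id.baseChange L x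
    rw [zpow_zero, one_smul])
  rw [LinearMap.range_id] at h1
  exact le_trans le_top h1

omit [DecidableEq ι] in
lemma hind_one (hc : ∀ o, c o ≠ 0) {A B : OVar W L O} {υ} {m : ℤ}
    (hA : ∀ o y, formBase L (W.tr A.X) (A.act o y) = c o ^ A.X.dim * formBase L (W.tr A.X) y)
    (hυ : ProdAct A B υ) (hs : SplitsO 𝓛 c A B υ) (t : W.H A.X →ₗ[W.K] W.H B.X)
    (ht : TMap 𝓛 c m (opSp A) (opSp B) t) (N : Submodule W.K (W.H B.X))
    (hN : ∀ (n : ℤ) (θ : W.K →ₗ[W.K] W.H B.X), TMap 𝓛 c n (unitSp W L O) (opSp B) θ →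
      LinearMap.range θ ≤ N) : LinearMap.range t ≤ N := by
  obtain ⟨z, rfl⟩ := (fm_bijective W (A := A.X) (B := B.X)).2 t
  have hz1 : TVec 𝓛 c (prodO A B υ) (A.X.dim - m) z := tmap_fm hc hA hυ ht
  rintro _ ⟨x, rfl⟩
  refine fm_mem_of_split (hs _ z hz1) (P := N) (fun n b hb => ?_) x
  have h2 := hN (-n) (LinearMap.toSpanSingleton W.K (W.H B.X) b) (tvec_tmap hc hb)
  exact h2 ⟨1, by rw [LinearMap.toSpanSingleton_apply, one_smul]⟩

omit [DecidableEq ι] in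
lemma hind_tr (h𝓛 : Directed' 𝓛) {A : 𝒱.Obj} {B : OVar W L O}
    (hB : ∀ o y, formBase L (W.tr B.X) (B.act o y) = c o ^ B.X.dim * formBase L (W.tr B.X) y)
    (t : W.H (A.prod B.X) →ₗ[W.K] W.K) (N : Submodule W.K W.K)
    (hN : ∀ (n : ℤ) (θ : W.H B.X →ₗ[W.K] W.K), TMap 𝓛 c n (opSp B) (unitSp W L O) θ →
      LinearMap.range θ ≤ N) : LinearMap.range t ≤ N := by
  have h1 := hN B.X.dim (W.tr B.X) (tr_tmap h𝓛 hB)
  by_cases h0 : W.tr B.X = 0
  · rintro _ ⟨y, rfl⟩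
    have h2 : y = 0 := eq_zero_of_tr_eq_zero h0 y
    rw [h2, map_zero]
    exact N.zero_mem
  · refine le_trans ?_ h1
    rw [LinearMap.range_eq_top.2 (LinearMap.surjective h0)]
    exact le_top

omit [DecidableEq ι] in
lemma hind_cons (h𝓛 : Directed' 𝓛) (hc : ∀ o, c o ≠ 0) {A B C : OVar W L O} {υ₀ ω υ} {m : ℤ}
    (hA : ∀ o y, formBase L (W.tr A.X) (A.act o y) = c o ^ A.X.dim * formBase L (W.tr A.X) y)
    (hB : ∀ o y, formBase L (W.tr B.X) (B.act o y) = c o ^ B.X.dim * formBase L (W.tr B.X) y)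
    (hυ₀ : ProdAct A B υ₀) (hω : ProdAct B C ω) (hυ : ProdAct A (prodO B C ω) υ)
    (hs : SplitsO 𝓛 c A (prodO B C ω) υ) (t : W.H (A.X.prod B.X) →ₗ[W.K] W.H C.X)
    (ht : TMap 𝓛 c m (opSp (prodO A B υ₀)) (opSp C) t) (N : Submodule W.K (W.H C.X))
    (hN : ∀ (n : ℤ) (θ : W.H B.X →ₗ[W.K] W.H C.X), TMap 𝓛 c n (opSp B) (opSp C) θ →
      LinearMap.range θ ≤ N) : LinearMap.range t ≤ N := by
  have hadj : TMap 𝓛 c (m - B.X.dim) (opSp A) (opSp (prodO B C ω)) (adj t) :=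
    adj_tmap hc hB hυ₀ hω ht
  obtain ⟨z, hz⟩ : ∃ z, fm W A.X (B.X.prod C.X) z = adj t :=
    (fm_bijective W (A := A.X) (B := B.X.prod C.X)).2 (adj t)
  have hz1 : TVec 𝓛 c (prodO A (prodO B C ω) υ) (A.X.dim - (m - B.X.dim)) z :=
    tmap_fm hc hA hυ (by rw [← hz] at hadj; exact hadj)
  have hz2 := hs _ z hz1
  have key : ∀ (x : W.H A.X) (x' : W.H B.X),
      t (W.map (fst A.X B.X) x * W.map (snd A.X B.X) x') ∈ N := by
    intro x x'
    rw [← fm_adj, ← hz]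
    let P : Submodule W.K (W.H (B.X.prod C.X)) := N.comap
      (LinearMap.applyₗ x' ∘ₗ fm W B.X C.X)
    exact fm_mem_of_split (B := prodO B C ω) hz2 (P := P) (fun n e he => by
      change fm W B.X C.X e x' ∈ N
      exact hN _ (fm W B.X C.X e) (fm_tmap h𝓛 hc hB hω he) ⟨x', rfl⟩) x
  rintro _ ⟨y, rfl⟩
  refine W.kunneth_induction (X := A.X) (Y := B.X) (p := fun y => t y ∈ N) ?_ ?_ y
  · intro a b ha hb
    rw [map_add]
    exact N.add_mem ha hb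
  · intro i' j' a _ b _
    exact key a b

/-- The independence hypothesis for towers. -/
lemma tower_hind (h𝓛 : Directed' 𝓛) (hc : ∀ o, c o ≠ 0) (hG : OClass c G) (hX : ∀ i, X i ∈ G)
    (hind : ∀ i A B υ, IsProdSet X G {i} A → IsProdSet X G {i}ᶜ B → ProdAct A B υ →
      prodO A B υ ∈ G → SplitsO 𝓛 c A B υ) :
    ∀ J : Finset ι, J.Nonempty → ∀ A ∈ Qt X G J, ∃ i ∈ J, ∀ J' : Finset ι, i ∉ J' →
      ∀ B ∈ Qt X G J', ∀ (m : ℤ) (t : A.V →ₗ[W.K] B.V), TMap 𝓛 c m A B t →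
        ∀ N : Submodule W.K B.V, (∀ A' ∈ Qt X G (J.erase i), ∀ (n : ℤ) (θ : A'.V →ₗ[W.K] B.V),
          TMap 𝓛 c n A' B θ → LinearMap.range θ ≤ N) → LinearMap.range t ≤ N := by
  rintro J hJ _ (⟨rfl, _⟩ | ⟨A, hA, rfl⟩)
  · exact absurd hJ (by simp)
  cases hA with
  | one i A hA =>
    refine ⟨i, Finset.mem_singleton_self i, ?_⟩
    rintro J' hiJ' _ (⟨rfl, rfl⟩ | ⟨B, hB, rfl⟩) m t ht N hN
    · exact hind_unit (V := W.H A.X) h𝓛 t N fun n θ hθ =>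
        hN (unitSp W L O) (Or.inl ⟨by simp, rfl⟩) n θ hθ
    · have hAG := hA.mem hX
      have hBG := hB.mem hX
      obtain ⟨υ, hυ, hυG⟩ := hG.prod A hAG B hBG
      have hs := hind i A B υ hA (hB.prodSet.mono (by
        intro x hx h; exact hiJ' (by rw [← Set.mem_singleton_iff.1 h]; exact_mod_cast hx))) hυ hυG
      exact hind_one hc (hG.tr A hAG) hυ hs t ht N fun n θ hθ =>
        hN (unitSp W L O) (Or.inl ⟨by simp, rfl⟩) n θ hθ
  | cons i J A B₀ υ₀ hi hJ hA hB₀ hυ₀ hυ₀G =>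
    refine ⟨i, Finset.mem_insert_self i J, ?_⟩
    rw [Finset.erase_insert hi]
    rintro J' hiJ' _ (⟨rfl, rfl⟩ | ⟨B, hB, rfl⟩) m t ht N hN
    · exact hind_tr h𝓛 (hG.tr B₀ (hB₀.mem hX)) t N fun n θ hθ =>
        hN (opSp B₀) (Or.inr ⟨B₀, hB₀, rfl⟩) n θ hθ
    · have hAG := hA.mem hX
      have hBG := hB.mem hX
      have hB₀G := hB₀.mem hX
      obtain ⟨ω, hω, hωG⟩ := hG.prod B₀ hB₀G B hBG
      obtain ⟨υ, hυ, hυG⟩ := hG.prod A hAG _ hωG
      have hprod : IsProdSet X G {i}ᶜ (prodO B₀ B ω) := by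
        refine IsProdSet.mul B₀ B ω (hB₀.prodSet.mono ?_) (hB.prodSet.mono ?_) hω hωG
        · intro x hx h
          exact hi (by rw [← Set.mem_singleton_iff.1 h]; exact_mod_cast hx)
        · intro x hx h
          exact hiJ' (by rw [← Set.mem_singleton_iff.1 h]; exact_mod_cast hx)
      exact hind_cons h𝓛 hc (hG.tr A hAG) (hG.tr B₀ hB₀G) hυ₀ hω hυ
        (hind i A _ υ hA hprod hυ hυG) t ht N fun n θ hθ =>
          hN (opSp B₀) (Or.inr ⟨B₀, hB₀, rfl⟩) n θ hθ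

end Pool.Agent.TH132.E
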