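import Pool.Agent.TH132.E.Main

/-!
# Exceptional sets for varieties: splitting of the classes on the product
-/

set_option autoImplicit false

open CategoryTheory AlgebraicGeometry TensorProduct

universe u v w

namespace Pool.Agent.TH132.E

open Pool.Agent.H914 Pool.Agent.H914.VarClass Pool.Agent.H914.VarClass.Obj
  Pool.Agent.H914.WeilCohomology

section Lin

variable {F L : Type*} [Field F] [Field L] [Algebra F L] {V U : Type*} [AddCommGroup V]
  [Module F V] [AddCommGroup U] [Module F U]

lemma formBase_comp (f : U →ₗ[F] F) (φ : V →ₗ[F] U) (x : L ⊗[F] V) :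
    (TensorProduct.AlgebraTensorModule.rid F L L) ((f ∘ₗ φ).baseChange L x) =
      (TensorProduct.AlgebraTensorModule.rid F L L) (f.baseChange L (φ.baseChange L x)) := by
  rw [LinearMap.baseChange_comp, LinearMap.comp_apply]

/-- Linear forms adapted to a linearly independent family spanning the span of a set. -/
lemma exists_coords [Module.Finite F V] (S : Set V) :
    ∃ (n : ℕ) (b : Fin n → V) (f : Fin n → V →ₗ[F] F), (∀ i, b i ∈ S) ∧
      (∀ i j, f i (b j) = if i = j then 1 else 0) ∧
      ∀ x ∈ Submodule.span F S, x = ∑ i, f i x • b i := by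
  classical
  obtain ⟨b, hbS, hbspan, hbli⟩ := exists_linearIndependent F S
  have hfin : Finite b := hbli.finite
  have := Fintype.ofFinite b
  let e := Fintype.equivFin b
  have hli : LinearIndependent F (fun i : Fin (Fintype.card b) => (e.symm i : V)) :=
    hbli.comp _ e.symm.injective
  have hbli' : LinearIndepOn F id b := hbli
  let B := Module.Basis.extend hbli'
  have hmem : ∀ i : Fin (Fintype.card b), (e.symm i : V) ∈
      hbli'.extend (Set.subset_univ b) := fun i =>
    Module.Basis.subset_extend hbli' (e.symm i).2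
  have hf : ∀ i j : Fin (Fintype.card b), B.coord ⟨e.symm i, hmem i⟩ (e.symm j : V) =
      if i = j then 1 else 0 := by
    intro i j
    have h1 : (e.symm j : V) = B ⟨e.symm j, hmem j⟩ := by
      rw [Module.Basis.extend_apply_self]
    rw [h1, Module.Basis.coord_apply, Module.Basis.repr_self, Finsupp.single_apply]
    congr 1
    simp only [Subtype.mk.injEq, eq_iff_iff]
    constructor
    · intro h
      exact (e.symm.injective (Subtype.ext h)).symm
    · rintro rfl
      rfl
  refine ⟨Fintype.card b, fun i => e.symm i, fun i => B.coord ⟨e.symm i, hmem i⟩,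
    fun i => hbS (e.symm i).2, hf, ?_⟩
  intro x hx
  rw [← hbspan] at hx
  induction hx using Submodule.span_induction with
  | mem y hy =>
    have h1 : y = (e.symm (e ⟨y, hy⟩) : V) := by rw [Equiv.symm_apply_apply]
    have h2 : ∀ i, B.coord ⟨e.symm i, hmem i⟩ y = if i = e ⟨y, hy⟩ then 1 else 0 := by
      intro i
      conv_lhs => rw [h1]
      exact hf i _
    simp only [h2, ite_smul, one_smul, zero_smul, Finset.sum_ite_eq', Finset.mem_univ, if_true]
    exact h1
  | zero => simp
  | add y z _ _ hy hz =>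
    simp only [map_add, add_smul, Finset.sum_add_distrib]
    rw [← hy, ← hz]
  | smul r y _ hy =>
    simp only [map_smul, smul_eq_mul, mul_smul, ← Finset.smul_sum]
    rw [← hy]

end Lin

variable {k : Type u} [Field k] {𝒱 : VarClass k} {ops : CycleOps 𝒱}
  {W : WeilCohomology.{u, v} ops} {L : Type v} [Field L] [Algebra W.K L] {O : Type w}
  {𝓛 : Set (Set O)} {c : O → L} {G : Set (OVar W L O)}

lemma exists_tr_eq {X : 𝒱.Obj} (φ : W.H X →ₗ[W.K] W.K) :
    ∃ a, ∀ x, φ x = W.tr X (x * a) := by
  let ψ : W.H X →ₗ[W.K] (W.H X →ₗ[W.K] W.K) := (LinearMap.mul W.K (W.H X)).flip.compr₂ (W.tr X)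
  have hψ : ∀ a x, ψ a x = W.tr X (x * a) := fun a x => rfl
  have hinj : Function.Injective ψ := by
    rw [← LinearMap.ker_eq_bot, LinearMap.ker_eq_bot']
    intro a ha
    apply nondeg_right (W := W)
    intro x
    rw [← hψ, ha, LinearMap.zero_apply]
  have hdim : Module.finrank W.K (W.H X) = Module.finrank W.K (W.H X →ₗ[W.K] W.K) :=
    (Subspace.dual_finrank_eq (K := W.K) (V := W.H X)).symm
  obtain ⟨a, ha⟩ := (LinearMap.injective_iff_surjective_of_finrank_eq_finrank hdim).1 hinj φ
  exact ⟨a, fun x => by rw [← hψ, ha]⟩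

/-- If the image of the map given by an eigenvector on the product is contained in the span of the
eigenvectors, then it is a combination of products of eigenvectors. -/
lemma split_of_range (h𝓛 : Directed' 𝓛) (hc : ∀ o, c o ≠ 0) {A Z : OVar W L O}
    (hA : ∀ o y, formBase L (W.tr A.X) (A.act o y) = c o ^ A.X.dim * formBase L (W.tr A.X) y)
    {υ} (hυ : ProdAct A Z υ) {m : ℤ} {t : W.H (A.X.prod Z.X)} (ht : TVec 𝓛 c (prodO A Z υ) m t)
    (hr : LinearMap.range (fm W A.X Z.X t) ≤ Submodule.span W.K {b | ∃ n, TVec 𝓛 c Z n b}) :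
    t ∈ Submodule.span W.K (tProducts 𝓛 c A Z) := by
  classical
  obtain ⟨n, b, f, hbS, hfb, hspan⟩ := exists_coords (F := W.K) {b | ∃ n, TVec 𝓛 c Z n b}
  choose w hw using hbS
  choose a ha using fun i => exists_tr_eq (W := W) (f i ∘ₗ fm W A.X Z.X t)
  have hφ : ∀ x, fm W A.X Z.X t x = ∑ i, W.tr A.X (x * a i) • b i := by
    intro x
    rw [hspan _ (hr ⟨x, rfl⟩)]
    exact Finset.sum_congr rfl fun i _ => by rw [← ha]; rfl
  have ht' : t = ∑ i, W.map (fst A.X Z.X) (a i) * W.map (snd A.X Z.X) (b i) := by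
    apply fm_injective W
    apply LinearMap.ext
    intro x
    rw [hφ, map_sum, LinearMap.sum_apply]
    exact Finset.sum_congr rfl fun i _ => (fm_mul W (a i) (b i) x).symm
  have hφT := fm_tmap h𝓛 hc hA hυ ht
  have haT : ∀ i, TVec 𝓛 c A (m - w i) (a i) := by
    intro i
    obtain ⟨D₀, hD₀, h₀⟩ := hφT
    choose D hD hDh using hw
    obtain ⟨D₁, hD₁, h₁⟩ := h𝓛.finite Finset.univ D fun j _ => hD j
    obtain ⟨D₂, hD₂, h₂⟩ := h𝓛.inter D₀ hD₀ D₁ hD₁
    refine ⟨D₂, hD₂, fun o ho => ?_⟩
    have ho0 : o ∈ D₀ := (h₂ ho).1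
    have ho1 : ∀ j, o ∈ D j := fun j => h₁ j (Finset.mem_univ j) (h₂ ho).2
    -- the map after the extension
    have hφL : ∀ x : L ⊗[W.K] W.H A.X, (fm W A.X Z.X t).baseChange L x =
        ∑ j, formBase L (W.tr A.X) (x * (1 : L) ⊗ₜ[W.K] a j) • ((1 : L) ⊗ₜ[W.K] b j) := by
      intro x
      refine tmul_induction (P := fun x => (fm W A.X Z.X t).baseChange L x = ∑ j,
        formBase L (W.tr A.X) (x * (1 : L) ⊗ₜ[W.K] a j) • ((1 : L) ⊗ₜ[W.K] b j)) ?_ ?_ ?_ x
      · simp
      · intro x y hx hy
        rw [map_add, hx, hy, ← Finset.sum_add_distrib]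
        exact Finset.sum_congr rfl fun j _ => by rw [add_mul, map_add, add_smul]
      · intro l y
        rw [LinearMap.baseChange_tmul, hφ, TensorProduct.tmul_sum]
        refine Finset.sum_congr rfl fun j _ => ?_
        rw [Algebra.TensorProduct.tmul_mul_tmul, mul_one, formBase_tmul, TensorProduct.tmul_smul,
          TensorProduct.smul_tmul', TensorProduct.smul_tmul', smul_eq_mul, mul_one,
          Algebra.smul_def, mul_comm]
    have hcoef : ∀ x : L ⊗[W.K] W.H A.X, formBase L (W.tr A.X) (x * (1 : L) ⊗ₜ[W.K] a i) =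
        formBase L (f i) ((fm W A.X Z.X t).baseChange L x) := by
      intro x
      rw [hφL, map_sum]
      simp only [map_smul, formBase_tmul, hfb, smul_eq_mul, one_mul]
      rw [Finset.sum_eq_single i]
      · rw [if_pos rfl, map_one, mul_one]
      · intro j _ hj
        rw [if_neg (Ne.symm hj), map_zero, mul_zero]
      · intro h
        exact absurd (Finset.mem_univ i) h
    have h3 : ∀ x : L ⊗[W.K] W.H A.X,
        formBase L (f i) ((fm W A.X Z.X t).baseChange L (A.act o x)) =
          c o ^ ((A.X.dim : ℤ) - m + w i) *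
            formBase L (W.tr A.X) (x * (1 : L) ⊗ₜ[W.K] a i) := by
      intro x
      have h4 : (fm W A.X Z.X t).baseChange L (A.act o x) =
        c o ^ ((A.X.dim : ℤ) - m) • Z.act o ((fm W A.X Z.X t).baseChange L x) := h₀ ⟨o, ho0⟩ x
      rw [h4, hφL, map_sum, map_smul, map_sum]
      simp only [map_smul, hDh _ o (ho1 _), formBase_tmul, hfb, smul_eq_mul, one_mul]
      rw [Finset.sum_eq_single i]
      · rw [if_pos rfl, map_one, mul_one, zpow_add₀ (hc o)]
        ring
      · intro j _ hj
        rw [if_neg (Ne.symm hj), map_zero, mul_zero, mul_zero]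
      · intro h
        exact absurd (Finset.mem_univ i) h
    have h5 : ∀ x : L ⊗[W.K] W.H A.X,
        formBase L (W.tr A.X) (A.act o x * (1 : L) ⊗ₜ[W.K] a i) =
          c o ^ (w i - m : ℤ) * formBase L (W.tr A.X)
            (A.act o x * A.act o ((1 : L) ⊗ₜ[W.K] a i)) := by
      intro x
      rw [hcoef, h3, ← map_mul, hA, ← mul_assoc, ← zpow_natCast, ← zpow_add₀ (hc o)]
      congr 2
      ring
    have h6 : (1 : L) ⊗ₜ[W.K] a i = c o ^ (w i - m : ℤ) • A.act o ((1 : L) ⊗ₜ[W.K] a i) := by
      rw [← sub_eq_zero]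
      refine nondeg_right (W := baseW W L) (X := A.X) fun y => ?_
      obtain ⟨x, rfl⟩ := (act_bijective (W := baseW W L) (A := A.X) (α := A.act o)
        (s := c o ^ A.X.dim) (hA o) (pow_ne_zero _ (hc o))).2 y
      have h7 : ∀ x : L ⊗[W.K] W.H A.X, formBase L (W.tr A.X) (A.act o x *
          ((1 : L) ⊗ₜ[W.K] a i - c o ^ (w i - m : ℤ) • A.act o ((1 : L) ⊗ₜ[W.K] a i))) = 0 := by
        intro x
        rw [mul_sub, map_sub, h5, mul_smul_comm, map_smul, smul_eq_mul, sub_self]
      exact h7 x
    have h8 : c o ^ (m - w i : ℤ) • ((1 : L) ⊗ₜ[W.K] a i : L ⊗[W.K] W.H A.X) =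
        A.act o ((1 : L) ⊗ₜ[W.K] a i) := by
      conv_lhs => rw [h6]
      rw [smul_smul, ← zpow_add₀ (hc o)]
      have : m - w i + (w i - m) = 0 := by ring
      rw [this, zpow_zero, one_smul]
    exact h8.symm
  rw [ht']
  exact Submodule.sum_mem _ fun i _ =>
    Submodule.subset_span ⟨m - w i, w i, a i, b i, haT i, hw i, rfl⟩

end Pool.Agent.TH132.E
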