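import Pool.Agent.TH132.E.Gen
import Pool.Agent.TH132.E.Fm

/-!
# Exceptional sets for varieties with operators on the cohomology
-/

set_option autoImplicit false

open CategoryTheory AlgebraicGeometry TensorProduct

universe u v w

namespace Pool.Agent.TH132.E

open Pool.Agent.H914 Pool.Agent.H914.VarClass Pool.Agent.H914.VarClass.Obj
  Pool.Agent.H914.WeilCohomology

variable {k : Type u} [Field k] {𝒱 : VarClass k} {ops : CycleOps 𝒱}

/-- A variety with operators on its cohomology with coefficients in `L`. -/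
structure OVar (W : WeilCohomology.{u, v} ops) (L : Type v) [Field L] [Algebra W.K L]
    (O : Type w) where
  /-- the variety -/
  X : 𝒱.Obj
  /-- the operators -/
  act : O → (L ⊗[W.K] W.H X →ₐ[L] L ⊗[W.K] W.H X)

section Defs

variable {W : WeilCohomology.{u, v} ops} {L : Type v} [Field L] [Algebra W.K L] {O : Type w}

/-- The operators `υ` on the cohomology of the product are compatible with the projections. -/
structure ProdAct (A B : OVar W L O) (υ : O → (L ⊗[W.K] W.H (A.X.prod B.X) →ₐ[L]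
    L ⊗[W.K] W.H (A.X.prod B.X))) : Prop where
  fst : ∀ o x, υ o (mapBase L (W.map (Obj.fst A.X B.X)) x) =
    mapBase L (W.map (Obj.fst A.X B.X)) (A.act o x)
  snd : ∀ o x, υ o (mapBase L (W.map (Obj.snd A.X B.X)) x) =
    mapBase L (W.map (Obj.snd A.X B.X)) (B.act o x)

/-- The product variety with operators. -/
noncomputable def prodO (A B : OVar W L O) (υ : O → (L ⊗[W.K] W.H (A.X.prod B.X) →ₐ[L]
    L ⊗[W.K] W.H (A.X.prod B.X))) : OVar W L O := ⟨A.X.prod B.X, υ⟩

/-- A class of varieties with operators: the operators multiply the trace by powers of `c`, and the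
class is closed under products. -/
structure OClass (c : O → L) (G : Set (OVar W L O)) : Prop where
  tr : ∀ A ∈ G, ∀ o y, formBase L (W.tr A.X) (A.act o y) =
    c o ^ A.X.dim * formBase L (W.tr A.X) y
  prod : ∀ A ∈ G, ∀ B ∈ G, ∃ υ, ProdAct A B υ ∧ prodO A B υ ∈ G

/-- The vector `t` is an eigenvector with eigenvalues `c o ^ m` for all operators in some level. -/
def TVec (𝓛 : Set (Set O)) (c : O → L) (A : OVar W L O) (m : ℤ) (t : W.H A.X) : Prop :=
  ∃ D ∈ 𝓛, ∀ o ∈ D, A.act o ((1 : L) ⊗ₜ[W.K] t) = c o ^ m • ((1 : L) ⊗ₜ[W.K] t)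

/-- The products of eigenvectors. -/
def tProducts (𝓛 : Set (Set O)) (c : O → L) (A B : OVar W L O) : Set (W.H (A.X.prod B.X)) :=
  {y | ∃ n n' a b, TVec 𝓛 c A n a ∧ TVec 𝓛 c B n' b ∧
    y = W.map (Obj.fst A.X B.X) a * W.map (Obj.snd A.X B.X) b}

/-- All eigenvectors on the product are linear combinations of products of eigenvectors. -/
def SplitsO (𝓛 : Set (Set O)) (c : O → L) (A B : OVar W L O)
    (υ : O → (L ⊗[W.K] W.H (A.X.prod B.X) →ₐ[L] L ⊗[W.K] W.H (A.X.prod B.X))) : Prop :=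
  ∀ m t, TVec 𝓛 c (prodO A B υ) m t → t ∈ Submodule.span W.K (tProducts 𝓛 c A B)

/-- The products of the members `X i`, `i ∈ S`, of the family. -/
inductive IsProdSet {ι : Type*} (X : ι → OVar W L O) (G : Set (OVar W L O)) (S : Set ι) :
    OVar W L O → Prop
  | one (i : ι) : i ∈ S → IsProdSet X G S (X i)
  | mul (A B : OVar W L O) (υ) : IsProdSet X G S A → IsProdSet X G S B → ProdAct A B υ →
      prodO A B υ ∈ G → IsProdSet X G S (prodO A B υ)

/-- The products `A₁ × (A₂ × ⋯)`, where `Aᵢ` is a product of copies of one member of the family. -/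
inductive IsTowerO {ι : Type*} [DecidableEq ι] (X : ι → OVar W L O) (G : Set (OVar W L O)) :
    Finset ι → OVar W L O → Prop
  | one (i : ι) (A : OVar W L O) : IsProdSet X G {i} A → IsTowerO X G {i} A
  | cons (i : ι) (J : Finset ι) (A B : OVar W L O) (υ) : i ∉ J → J.Nonempty →
      IsProdSet X G {i} A → IsTowerO X G J B → ProdAct A B υ → prodO A B υ ∈ G →
      IsTowerO X G (insert i J) (prodO A B υ)

/-- The cohomology as a vector space with operators. -/
noncomputable def opSp (A : OVar W L O) : OpSp W.K L O where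
  V := W.H A.X
  τ o := (A.act o).toLinearMap

/-- The one-dimensional space. -/
noncomputable def unitSp (W : WeilCohomology.{u, v} ops) (L : Type v) [Field L] [Algebra W.K L]
    (O : Type w) : OpSp W.K L O where
  V := W.K
  τ _ := LinearMap.id

/-- The spaces with operators attached to the towers. -/
def Qt {ι : Type*} [DecidableEq ι] (X : ι → OVar W L O) (G : Set (OVar W L O)) (J : Finset ι) :
    Set (OpSp W.K L O) :=
  {M | (J = ∅ ∧ M = unitSp W L O) ∨ ∃ A, IsTowerO X G J A ∧ M = opSp A}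

end Defs

section Maps

variable {W : WeilCohomology.{u, v} ops} {L : Type v} [Field L] [Algebra W.K L] {O : Type w}
  {𝓛 : Set (Set O)} {c : O → L} {G : Set (OVar W L O)}

lemma IsProdSet.mem {ι : Type*} {X : ι → OVar W L O} {S : Set ι} (hX : ∀ i, X i ∈ G)
    {A : OVar W L O} (h : IsProdSet X G S A) : A ∈ G := by
  cases h with
  | one i hi => exact hX i
  | mul A B υ h1 h2 h3 h4 => exact h4

lemma IsProdSet.mono {ι : Type*} {X : ι → OVar W L O} {S S' : Set ι} (hS : S ⊆ S')
    {A : OVar W L O} (h : IsProdSet X G S A) : IsProdSet X G S' A := by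
  induction h with
  | one i hi => exact IsProdSet.one i (hS hi)
  | mul A B υ _ _ h3 h4 ih1 ih2 => exact IsProdSet.mul A B υ ih1 ih2 h3 h4

variable {ι : Type*} [DecidableEq ι] {X : ι → OVar W L O}

lemma IsTowerO.prodSet {J : Finset ι} {A : OVar W L O} (h : IsTowerO X G J A) :
    IsProdSet X G (J : Set ι) A := by
  induction h with
  | one i A h => exact h.mono (by simp)
  | cons i J A B υ hi hJ hA hB h3 h4 ih =>
    exact IsProdSet.mul A B υ (hA.mono (by simp)) (ih.mono (by simp)) h3 h4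

lemma IsTowerO.mem {J : Finset ι} {A : OVar W L O} (hX : ∀ i, X i ∈ G) (h : IsTowerO X G J A) :
    A ∈ G := h.prodSet.mem hX

lemma IsTowerO.nonempty {J : Finset ι} {A : OVar W L O} (h : IsTowerO X G J A) : J.Nonempty := by
  cases h with
  | one i A h => exact Finset.singleton_nonempty i
  | cons i J A B υ hi hJ hA hB h3 h4 => exact Finset.insert_nonempty i J

omit [DecidableEq ι] in
lemma fm_tmap (h𝓛 : Directed' 𝓛) (hc : ∀ o, c o ≠ 0) {A B : OVar W L O}
    (hA : ∀ o y, formBase L (W.tr A.X) (A.act o y) = c o ^ A.X.dim * formBase L (W.tr A.X) y)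
    {υ} (hυ : ProdAct A B υ) {n : ℤ} {t : W.H (A.X.prod B.X)} (ht : TVec 𝓛 c (prodO A B υ) n t) :
    TMap 𝓛 c (A.X.dim - n) (opSp A) (opSp B) (fm W A.X B.X t) := by
  obtain ⟨D, hD, h⟩ := ht
  refine ⟨D, hD, fun o x => ?_⟩
  have h1 := fm_compat (W := baseW W L) (A := A.X) (B := B.X) (α := A.act o) (β := B.act o)
    (γ := υ o) (s := c o ^ A.X.dim) (hυ.fst o) (hυ.snd o) (hA o)
    (t := ((1 : L) ⊗ₜ[W.K] t : L ⊗[W.K] W.H (A.X.prod B.X))) (r := c o ^ n)
    (zpow_ne_zero _ (hc o)) (h o o.2) x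
  have h2 : c o ^ ((A.X.dim : ℤ) - n) = c o ^ A.X.dim * (c o ^ n)⁻¹ := by
    rw [zpow_sub₀ (hc _), zpow_natCast, div_eq_mul_inv]
  change (fm W A.X B.X t).baseChange L (A.act o x) = c o ^ ((A.X.dim : ℤ) - n) •
    B.act o ((fm W A.X B.X t).baseChange L x)
  rw [h2]
  exact ((fm_base W L t (A.act o x)).symm.trans h1).trans
    (congrArg (fun z : L ⊗[W.K] W.H B.X => (c o ^ A.X.dim * (c o ^ n)⁻¹) • B.act o z)
      (fm_base W L t x))

omit [DecidableEq ι] in
lemma tmap_fm (hc : ∀ o, c o ≠ 0) {A B : OVar W L O}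
    (hA : ∀ o y, formBase L (W.tr A.X) (A.act o y) = c o ^ A.X.dim * formBase L (W.tr A.X) y)
    {υ} (hυ : ProdAct A B υ) {m : ℤ} {t : W.H (A.X.prod B.X)}
    (ht : TMap 𝓛 c m (opSp A) (opSp B) (fm W A.X B.X t)) :
    TVec 𝓛 c (prodO A B υ) (A.X.dim - m) t := by
  obtain ⟨D, hD, h⟩ := ht
  refine ⟨D, hD, fun o ho => ?_⟩
  have h1 := cls_act (W := baseW W L) (A := A.X) (B := B.X) (α := A.act o) (β := B.act o)
    (γ := υ o) (s := c o ^ A.X.dim) (hυ.fst o) (hυ.snd o) (hA o) (pow_ne_zero _ (hc o))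
    (t := ((1 : L) ⊗ₜ[W.K] t : L ⊗[W.K] W.H (A.X.prod B.X))) (r := c o ^ m)
    (zpow_ne_zero _ (hc o)) (fun x => ((fm_base W L t (A.act o x)).trans (h ⟨o, ho⟩ x)).trans
      (congrArg (fun z : L ⊗[W.K] W.H B.X => c o ^ m • B.act o z) (fm_base W L t x)).symm)
  have h2 : c o ^ ((A.X.dim : ℤ) - m) = c o ^ A.X.dim * (c o ^ m)⁻¹ := by
    rw [zpow_sub₀ (hc _), zpow_natCast, div_eq_mul_inv]
  rw [h2]
  exact h1

end Maps

end Pool.Agent.TH132.E
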